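import Pool.Agent.Helper76.TB.Goals

/-!
# Project TB: the steps of the random sieve theorem (part T3)

Everything is for the blocks `[r ^ 4, (r + 1) ^ 4)`. Most steps are adaptations of the files of
project BFT (Helper60, 61, 30, 75, 39, 87, 88, 18), where the threshold between arbitrary and random
classes is `r`; here it is `ρ r ≤ r`, and `β` satisfies `AdH ρ β` (so `β r p a = a p` for `p > ρ r`).
-/

set_option autoImplicit false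

open Finset Filter Topology MeasureTheory ProbabilityTheory

namespace Pool.Agent.Helper76.TB

open Pool.Agent.Helper90.Twin (Ps Gz Sz XX yy Xz)
open Pool.Agent.Helper60.BFT (XA yA Av lg B0 B1 B2 run chi len YF YP Pair T0 T1 T2 Rem mT Uni root delta
  Adapted)

/-- DIF2: bounded differences.

Proof. Copy of `Helper30.BFT.difG` (with `LIPG` from Helper64, LipSeq) with `K = 4`; there `r < q` and
`Adapted β` are used in `YF_update` only: if `n, n + 2` are not congruent to `u, v` modulo `q`, then `YF` has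
the same value for both assignments. Here: the class of `p` in `YF 4 Z β r b` is
`if p ≤ r then β r p b else b p`, which is `β r p b` for `p ≤ ρ r` and `b p` for `p > ρ r` (`AdH.large`,
`ρ r ≤ r`). For `p ≤ ρ r < q` it does not change by `AdH.small`; for `p > ρ r`, `p ≠ q`, it is `a p`. -/
def DIF2G : Prop :=
  ∀ (ρ Z : ℕ → ℕ) (β : ℕ → ℕ → (ℕ → ℕ) → ℕ), (∀ s, ρ s ≤ s) → AdH ρ β → ∀ (r : ℕ),
    ∀ q : ℕ, q.Prime → ρ r < q → ∀ (a : ℕ → ℕ) (u v : ℕ),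
      |T0 4 Z β r (Function.update a q u) - T0 4 Z β r (Function.update a q v)|
        ≤ 12 * ((len 4 r : ℝ) / q + 1) ∧
      |T1 4 Z β r (Function.update a q u) - T1 4 Z β r (Function.update a q v)|
        ≤ 12 * ((len 4 r : ℝ) / q + 1) ∧
      |T2 4 Z β r (Function.update a q u) - T2 4 Z β r (Function.update a q v)|
        ≤ 12 * ((len 4 r : ℝ) / q + 1)

/-- REM2: expected loss by freezing the cutoff.

Proof. Copy of `Helper61.BFT.remg` (Rem.lean) with `K = 4`; there `r ≤ Z (r ^ K)` and `Adapted` are used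
only to know that the class of a prime `p ∈ (Z (r ^ 4), Z ((r + 1) ^ 4)]` near `n` (`root 4 n = r`) is `a p`.
Here `ρ r ≤ Z (r ^ 4) < p`, so this class is `β r p a = a p` if `p ≤ r` (`AdH.large`) and `a p` if `p > r`. And
`p ≥ 5` since `p > Z (r ^ 4) ≥ 5`. -/
def REM2G : Prop :=
  ∀ (Ω : Type) [MeasurableSpace Ω] (μ : Measure Ω) [IsProbabilityMeasure μ] (ω : ℕ → Ω → ℕ),
    Uni μ ω → ∀ (ρ Z : ℕ → ℕ) (β : ℕ → ℕ → (ℕ → ℕ) → ℕ), Monotone Z → (∀ s, ρ s ≤ s) → AdH ρ β →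
      ∀ r : ℕ, 5 ≤ Z (r ^ 4) → ρ r ≤ Z (r ^ 4) →
        ∫ w, Rem 4 Z β r (fun p => ω p w) ∂μ
          ≤ len 4 r * ((∑ p ∈ Ps (Z ((r + 1) ^ 4)), 2 / (p : ℝ)) - ∑ p ∈ Ps (Z (r ^ 4)), 2 / (p : ℝ))

/-- EDV2: expected total deviation.

Proof. Adaptation of `Helper39.BFT.edv` (EDV.lean; `stat`, `int4`, `Av_loc`, the bounds `T0_bound` .. are
general). Inputs: `VARG` (Helper61), `LAWG` (Helper75), `LOCG` (Helper30, `AdH` and `ρ ≤ id` give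
`Adapted β`), DIF2, REM2. Eventually `5 ≤ Z (r ^ 4)` and `ρ r ≤ Z (r ^ 4)` (`log (Z n) / log n → c > 0`;
`log (ρ r) / log r → 0` by `Thr.high`, since `log log r ≥ 1`), and `log r ^ 20 ≤ ρ r`; choose `R0` after
this. For such `r`, with `l = len 4 r ≤ 32 r ^ 3` (`Helper39.BFT.len_le`), the three martingale terms are each
`≤ sqrt (∑ q ∈ (ρ r, Z (r ^ 4)], (12 (l / q + 1)) ^ 2) ≤ sqrt (288 l ^ 2 / ρ r + 288 r ^ 4)
≤ 17 * 32 * r ^ 3 / (log r) ^ 10 + 17 * r ^ 2` (as `sumsq`: `∑_{q > ρ} 1 / q ^ 2 ≤ 1 / ρ`, and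
`Z (r ^ 4) ≤ r ^ 4`). The remainder: REM2, `≤ 32 R ^ 3 * (D (r + 1) - D r)`, `D r = ∑ p ∈ Ps (Z (r ^ 4)), 2 / p`,
whose sum telescopes to `32 R ^ 3 * D R`, and `D R ≤ 2 * (1 + log (R ^ 4))` (harmonic sum, `harm_le`).
Sum over `r < R`: `∑ r ^ 3 / (log r) ^ 10 ≤ R ^ 2 + 2 ^ 10 * R ^ 4 / (log R) ^ 10` (split at `sqrt R`; `r ≥ 3`), and
`R ^ 2`, `R ^ 3 * (1 + log R)` are `≤ C R ^ 4 / (log R) ^ 9` for all `R ≥ 3` (`(log R) ^ 10 / R` is bounded). -/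
def EDV2G : Prop :=
  ∀ (c : ℝ), 0 < c → ∀ (Z ρ : ℕ → ℕ), CutL c Z → Thr ρ → ∃ C : ℝ, ∃ R0 : ℕ, 3 ≤ R0 ∧
    ∀ (Ω : Type) [MeasurableSpace Ω] (μ : Measure Ω) [IsProbabilityMeasure μ] (ω : ℕ → Ω → ℕ),
      Uni μ ω → ∀ (β : ℕ → ℕ → (ℕ → ℕ) → ℕ), AdH ρ β → ∀ R : ℕ, 3 ≤ R →
        ∑ r ∈ Ico R0 R, ∫ w, Dev2 ρ Z β r (fun p => ω p w) ∂μ ≤ C * ((R : ℝ) ^ 4 / Real.log R ^ 9)

/-- DVS2: almost surely the deviations are small.

Proof. Adaptation of `Helper87.BFT.dvs` (DVS.lean; integrability of `Dev2` from `LAWG`, `LOCG` and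
`Helper39.BFT.Av_loc`, bounds as there). With `F j = ∑ r ∈ Ico R0 (2 ^ j), Dev2 r ≥ 0`, EDV2 gives
`∫ F j ≤ C * 2 ^ (4 j) / (j * log 2) ^ 9`, so by Markov `μ {F j ≥ 2 ^ (4 j) / j ^ 6} ≤ C' / j ^ 3` for `j ≥ 2`, which
is summable; Borel-Cantelli: almost surely `F j < 2 ^ (4 j) / j ^ 6` for all large `j`. For large `R` choose `j`
with `2 ^ (j - 1) ≤ R < 2 ^ j`: `∑ r ∈ range R, Dev2 r ≤ const (w) + F j ≤ const + 16 * R ^ 4 / j ^ 6`, and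
`j ≥ log R / log 2 ≥ log R`, so this is `≤ R ^ 4 / (log R) ^ 5` for large `R`. -/
def DVS2G : Prop :=
  ∀ (c : ℝ), 0 < c → ∀ (Z ρ : ℕ → ℕ), CutL c Z → Thr ρ →
    ∀ (Ω : Type) [MeasurableSpace Ω] (μ : Measure Ω) [IsProbabilityMeasure μ] (ω : ℕ → Ω → ℕ),
      Uni μ ω → ∀ (β : ℕ → ℕ → (ℕ → ℕ) → ℕ), AdH ρ β →
        ∀ᵐ w ∂μ, ∀ᶠ R : ℕ in atTop,
          ∑ r ∈ range R, Dev2 ρ Z β r (fun p => ω p w) ≤ (R : ℝ) ^ 4 / Real.log R ^ 5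

/-- BLK2: the means of the block statistics.

Proof. Adaptation of `Helper18.BFT.blk` (Blk.lean): its general lemmas (`cnt`, `sum_prog`, `run_prog`,
`run_scale`, `chi_add`, `XA_congr`, `Av_trans`, `dvd_tr_iff`, ..) are used as they are; the dictionary
`tr`, `YF_eq`, `YF_zero` is copied with `K = 4` and with `lg (ρ r) (Z (r ^ 4))` in place of
`lg r (Z (r ^ K))` (the class of `p` in `YF 4 Z β r b` is `β r p a` for `p ≤ ρ r` and `b p` for `p > ρ r`, if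
`b = a` off `lg (ρ r) (Z (r ^ 4))`; needed: `3 ≤ ρ r`, eventually true). With `Zr = Z (r ^ 4)`,
`N = cnt i0 (len 4 r)`, `|N - len 4 r / 6| ≤ 1`: the three left averages are `Av (lg (ρ r) Zr) (B0 ..)`, `± Av (B1 ..)`,
`Av (B2 ..)` at a translated assignment. MEAN for `Z := Zr`, `r := ρ r`: eventually `ρ r ≤ Zr`
(`log (ρ r) / log r → 0`, `log Zr / log r → 4 c`), and
`C * l2 Zr ^ 2 * (log (ρ r + 2) + l2 Zr) ≤ log N`: `Zr ≤ r ^ 4` gives `l2 Zr ≤ log log r + 2 ≤ 2 log log r ≤ log (ρ r)`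
(`ρ r ≥ (log r) ^ 20`), `log (ρ r + 2) ≤ 2 log (ρ r)`, so the left side is
`≤ 12 C (log log r) ^ 2 log (ρ r) = o (log r)` by `Thr.high`, and `N ≥ r ^ 3 / 6 - 1 ≥ r ^ 2`. The errors:
`N / (log Zr) ^ 5 + 1` (`+ |DD Zr * Gz Zr| = |PA Zr sg| ≤ 1` in the third), `log Zr ≥ 2 c log r` eventually, and
`1 ≤ len 4 r / (log r) ^ 5`. Also `mT 4 Z r * DD Zr = len 4 r / 6 * PA Zr sg` (`Gz > 0`), and `|PA Z sg| ≤ 1`
because `|phi sg X H t| ≤ 1` (at most one term is nonzero). -/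
def BLK2G : Prop :=
  ∀ (c : ℝ), 0 < c → ∀ (Z ρ : ℕ → ℕ), CutL c Z → Thr ρ → ∃ C : ℝ, ∀ᶠ r : ℕ in atTop,
    ∀ β : ℕ → ℕ → (ℕ → ℕ) → ℕ, AdH ρ β → ∀ a : ℕ → ℕ,
      |EE2 ρ Z (T0 4 Z β r) r a - mT 4 Z r| ≤ C * (len 4 r / Real.log r ^ 5) ∧
      |EE2 ρ Z (T1 4 Z β r) r a| ≤ C * (len 4 r / Real.log r ^ 5) ∧
      |EE2 ρ Z (T2 4 Z β r) r a - mT 4 Z r * DD (Z (r ^ 4))| ≤ C * (len 4 r / Real.log r ^ 5)

/-- LOW2: the main terms.

Proof. `mT 4 Z r = len 4 r * Gz (Z (r ^ 4)) / 6`, `Gz` is antitone, `Z (r ^ 4) ≤ r ^ 4 ≤ R ^ 4`, so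
`WW Z R ≥ (∑ r ∈ range R, len 4 r) * Gz (R ^ 4) / 6 = R ^ 4 * Gz (R ^ 4) / 6` (telescoping), and
`Gz (R ^ 4) ≥ c0 / (4 log R) ^ 2` by GZL. `c' = c0 / 96`. -/
def LOW2G : Prop :=
  ∀ (Z : ℕ → ℕ), (∀ n, Z n ≤ n) → ∃ c' : ℝ, 0 < c' ∧ ∀ᶠ R : ℕ in atTop,
    c' * ((R : ℝ) ^ 4 / Real.log R ^ 2) ≤ WW Z R

/-- WAV: the weighted mean.

Proof (inputs CORE, LOW2). `m r = mT 4 Z r ∈ [0, len 4 r]`, `v r = vv r = (l2 r / log r) ^ 2`,
`u r = DD (Z (r ^ 4)) / v r`, `l = -exp (-2 γ) / (16 c ^ 2)`. (i) `u r → l`: by CORE along `Z (r ^ 4) → ∞`,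
`DD (Z (r ^ 4)) * (log (Z (r ^ 4)) / l2 (Z (r ^ 4))) ^ 2 → -exp (-2 γ)`, and `log (Z (r ^ 4)) / log r → 4 c`
(`CutL.lim` along `r ^ 4`), `l2 (Z (r ^ 4)) / l2 r → 1` (its logarithm is `log log r + log (4 c) + o (1)`).
(ii) `v` is antitone on `[16, ∞)` (`log x / x` is antitone for `x ≥ exp 1`), and
`v R * WW Z R ≥ c' * R ^ 4 * l2 R ^ 2 / (log R) ^ 4 → ∞` by LOW2. (iii) For `0 < ε < 1`, the sum of `m r * v r`
over `16 ≤ r < R ^ (1 - ε)` is `≤ v 16 * R ^ (4 (1 - ε))`, which is `o (v R * WW Z R)`; for `R ^ (1 - ε) ≤ r < R`,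
`v r ≤ (l2 R / ((1 - ε) log R)) ^ 2 = v R / (1 - ε) ^ 2`, and `v r ≥ v R` for `16 ≤ r < R`. So
`(∑ r ∈ range R, m r * v r) / (v R * WW Z R) → 1` (the terms `r < 16` are a constant over
something tending to infinity; for the lower bound `∑_{16 ≤ r < R} m r v r ≥ v R (WW Z R - WW Z 16)`).
(iv) `∑ r ∈ range R, m r * v r * |u r - l| ≤ const + ε * ∑ m r * v r`. Hence
`DW Z R / v R = (∑ m r * v r * u r) / (v R * WW Z R) → l`. -/
def WAVG : Prop :=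
  ∀ (c : ℝ), 0 < c → ∀ (Z : ℕ → ℕ), CutL c Z →
    Tendsto (fun R : ℕ => (Real.log R / l2 R) ^ 2 * DW Z R) atTop
      (𝓝 (-Real.exp (-2 * Real.eulerMascheroniConstant) / (16 * c ^ 2)))

open Classical in
/-- indicator -/
noncomputable def ind (P : ℕ → Prop) (n : ℕ) : ℝ := if P n then 1 else 0

/-- DELTA2: the transition frequencies in terms of the three sums.

Proof. As `Helper88.BFT.delta_bound` (PthEnum): with `M = ∑ ind`, `S1 = ∑ ind * chi`,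
`S2 = (run ..).1 ± 1`, `count₁ = (M + εa S1) / 2`,
`count₂ = (M + εa S1 + εb (S1 + δ) + εa εb S2) / 4`, `|δ| ≤ 2`. So
`delta - 1 / 2 - εa εb D / 2 = (εb (S1 + δ) + εa εb (S2 - D (M + εa S1))) / (2 (M + εa S1))`; numerator
`≤ e W + 2 + (e W + 1) + 2 e W ≤ 5 e W`, denominator `≥ 2 (1 - 2 e) W ≥ 1.9 W`. -/
def DELTA2G : Prop :=
  ∀ P : ℕ → Prop, (Set.ofPred P).Infinite → (∀ n, P n → n % 2 = 1) → ∀ (x : ℕ) (e W D : ℝ),
    0 < e → e ≤ 1 / 100 → |D| ≤ 1 → 3 ≤ e * W →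
    |∑ n ∈ range (x + 1), ind P n - W| ≤ e * W →
    |∑ n ∈ range (x + 1), ind P n * chi n| ≤ e * W →
    |(run chi (ind P) (x + 1)).1 - D * W| ≤ e * W →
    ∀ a b : ℕ, (a = 1 ∨ a = 3) → (b = 1 ∨ b = 3) →
      |delta P x a b - 1 / 2 - (if a = b then 1 else -1) * (D / 2)| ≤ 4 * e

/-- the pathwise hypotheses -/
structure PathH (Z ρ : ℕ → ℕ) (β : ℕ → ℕ → (ℕ → ℕ) → ℕ) (a : ℕ → ℕ) (C c' : ℝ) : Prop where
  pos : 0 < c'
  blk : ∀ᶠ r : ℕ in atTop,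
      |EE2 ρ Z (T0 4 Z β r) r a - mT 4 Z r| ≤ C * (len 4 r / Real.log r ^ 5) ∧
      |EE2 ρ Z (T1 4 Z β r) r a| ≤ C * (len 4 r / Real.log r ^ 5) ∧
      |EE2 ρ Z (T2 4 Z β r) r a - mT 4 Z r * DD (Z (r ^ 4))| ≤ C * (len 4 r / Real.log r ^ 5)
  dev : ∀ᶠ R : ℕ in atTop, ∑ r ∈ range R, Dev2 ρ Z β r a ≤ (R : ℝ) ^ 4 / Real.log R ^ 5
  low : ∀ᶠ R : ℕ in atTop, c' * ((R : ℝ) ^ 4 / Real.log R ^ 2) ≤ WW Z R

/-- PTHA: pathwise, the three sums up to `x`.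

Proof. Adaptation of `Helper88.BFT.pth` (Pth.lean; `sum_blocks`, `run_blocks`, `run_fst_step`,
`root_pow_le`, `lt_root_pow`, `root_tendsto`, `sum_ev_le` in PthRun.lean and `block0`, `block1`, `block2`
with `K = 4` are used as they are or with the trivial change to two-sided bounds; `LIPG` from Helper64).
Let `R = root 4 x`, `P = Pair 4 Z β a`, `ind P = YP 4 Z β a`. Blockwise:
`|∑ block YP - mT| ≤ Rem + |T0 - EE2 T0| + |EE2 T0 - mT| ≤ Dev2 + C len / (log r) ^ 5`,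
`|∑ block YP * chi| ≤ Rem + |T1| ≤ Dev2 + C len / (log r) ^ 5`, and
`|(run on the block with YP).1 - mT * DD (Z (r ^ 4))| ≤ 3 Rem + |T2 - EE2 T2| + .. ≤ 3 Dev2 + C len / (log r) ^ 5`.
Summing (`sum_ev_le`) over `r < R`, `run_blocks` (error `R`), and the last incomplete block (error
`len 4 R`): each of the three differences is at most
`E = 3 ∑_{r<R} Dev2 + |C| ∑_{r<R} len 4 r / (log r) ^ 5 + const + R + len 4 R`, and
`∑_{2 ≤ r<R} len 4 r / (log r) ^ 5 ≤ C2 * R ^ 4 / (log R) ^ 5` (split at `sqrt R`: the blocks below contribute at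
most `R ^ 2 / (log 2) ^ 5`). So `E ≤ C3 * R ^ 4 / (log R) ^ 5`, while
`vv R * WW Z R ≥ c' * R ^ 4 * l2 R ^ 2 / (log R) ^ 4`; hence `E ≤ η * vv R * WW Z R` for large `R`. -/
def PTHAG : Prop :=
  ∀ (Z ρ : ℕ → ℕ) (β : ℕ → ℕ → (ℕ → ℕ) → ℕ) (a : ℕ → ℕ) (C c' : ℝ), PathH Z ρ β a C c' →
    ∀ η : ℝ, 0 < η → ∀ᶠ x : ℕ in atTop,
      |∑ n ∈ range (x + 1), ind (Pair 4 Z β a) n - WW Z (root 4 x)|
        ≤ η * vv (root 4 x) * WW Z (root 4 x) ∧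
      |∑ n ∈ range (x + 1), ind (Pair 4 Z β a) n * chi n| ≤ η * vv (root 4 x) * WW Z (root 4 x) ∧
      |(run chi (ind (Pair 4 Z β a)) (x + 1)).1 - DW Z (root 4 x) * WW Z (root 4 x)|
        ≤ η * vv (root 4 x) * WW Z (root 4 x) ∧
      3 ≤ η * vv (root 4 x) * WW Z (root 4 x)

/-- PTHB: pathwise, the limit.

Proof (input DELTA2). `P = Pair 4 Z β a`: odd by definition; infinite because
`∑ n ∈ range (x + 1), ind P n ≥ WW / 2` and `η * vv * WW ≥ 3` for every `η`, so the sum is unbounded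
(`vv R ≤ 1` for large `R`). `vv R → 0`, `|DW Z R| ≤ 1` since `|DD z| ≤ 1` (`|phi sg X H t| ≤ X t`, at most one term
is nonzero, and `∑ t, Xz z t = Q * Gz z` over a period) and `mT ≥ 0`. For `η ≤ 1 / 100` and large `x`,
DELTA2 with `e = η * vv R`, `W = WW Z R`, `D = DW Z R`, `R = root 4 x`:
`|delta P x b d - 1 / 2 - s * DW Z R / 2| ≤ 4 η vv R`, `s = if b = d then 1 else -1`. Multiply by
`(log x / l2 x) ^ 2`: since `R ^ 4 ≤ x < (R + 1) ^ 4`, `log x / log R → 4` and `l2 x / l2 R → 1`, so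
`(log x / l2 x) ^ 2 * vv R → 16`, and `(log x / l2 x) ^ 2 * DW Z R → 16 l`. -/
def PTHBG : Prop :=
  ∀ (Z : ℕ → ℕ) (β : ℕ → ℕ → (ℕ → ℕ) → ℕ) (a : ℕ → ℕ) (l : ℝ),
    (∀ η : ℝ, 0 < η → ∀ᶠ x : ℕ in atTop,
      |∑ n ∈ range (x + 1), ind (Pair 4 Z β a) n - WW Z (root 4 x)|
        ≤ η * vv (root 4 x) * WW Z (root 4 x) ∧
      |∑ n ∈ range (x + 1), ind (Pair 4 Z β a) n * chi n| ≤ η * vv (root 4 x) * WW Z (root 4 x) ∧
      |(run chi (ind (Pair 4 Z β a)) (x + 1)).1 - DW Z (root 4 x) * WW Z (root 4 x)|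
        ≤ η * vv (root 4 x) * WW Z (root 4 x) ∧
      3 ≤ η * vv (root 4 x) * WW Z (root 4 x)) →
    Tendsto (fun R : ℕ => (Real.log R / l2 R) ^ 2 * DW Z R) atTop (𝓝 l) →
    ∀ b d : ℕ, (b = 1 ∨ b = 3) → (d = 1 ∨ d = 3) →
      Tendsto (fun x : ℕ => (Real.log x / l2 x) ^ 2 * (delta (Pair 4 Z β a) x b d - 1 / 2)) atTop
        (𝓝 ((if b = d then 1 else -1) * (8 * l)))

/-- CUTB: the Banks-Ford-Tao cutoff satisfies `log (Z n) / log n → exp (-γ)`.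

Proof. `V z = ∏_{p ≤ z} (1 - 1 / p)` is the product below (`Helper48.CR.V`, `pr 0 z`), and
`V z * log z → exp (-γ)` (`Helper84.CR.mert`, first part). `V (Z n) * log n → 1` implies `V (Z n) → 0`,
hence `Z n → ∞` (`V z > 0` for every `z`, so `Z` is eventually larger than any bound). Divide:
`log (Z n) / log n = (V (Z n) * log (Z n)) / (V (Z n) * log n) → exp (-γ)`. -/
def CUTBG : Prop :=
  ∀ Z : ℕ → ℕ,
    Tendsto (fun n : ℕ => (∏ p ∈ (range (Z n + 1)).filter Nat.Prime, (1 - 1 / (p : ℝ))) * Real.log n)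
      atTop (𝓝 1) →
    Tendsto (fun n : ℕ => Real.log (Z n) / Real.log n) atTop
      (𝓝 (Real.exp (-Real.eulerMascheroniConstant)))

end Pool.Agent.Helper76.TB
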