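import Pool.Agent.Helper76.TB.Defs

/-!
# Project TB: the interface between the core (helper33, helper22) and the uniform version
-/

set_option autoImplicit false

open Finset Filter Topology

namespace Pool.Agent.Helper76.TB

open Pool.Agent.Helper90.Twin (Ps Gz Xz)

/-- CORE (from helper33, helper22). `DD z = PAH z (HH z) (-1)^g / Gz z`, where
`PAH z H c = (1 / Q) ∑_{t < Q} X_t ∑_{1 ≤ g ≤ H} c_g X_{t+g} ∏_{0<i<g} (1 - X_{t+i})`,
`Q = ∏ Ps z`, `X = Xz z`, `HH z = ⌈100 * log log z / Gz z⌉`. -/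
def COREG : Prop :=
  Tendsto (fun z : ℕ => (Real.log z / l2 z) ^ 2 * DD z) atTop
    (𝓝 (-Real.exp (-2 * Real.eulerMascheroniConstant)))

/-- LONG (from helper33): `Gz z - PA z 1 = (1 / Q) ∑_{t < Q} X_t ∏_{1 ≤ i ≤ H} (1 - X_{t+i})` is the
proportion of the gaps longer than `HH z`. -/
def LONGG : Prop :=
  ∀ᶠ z : ℕ in atTop, Gz z - PA z (fun _ => 1) ≤ 1 / Real.log z ^ 6

/-- GZL: `Gz z` has the exact order `1 / log ^ 2 z`.

Proof. `Helper84.CR.mert : MERTG` (first part): with `V z = ∏_{p ≤ z} (1 - 1 / p)`,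
`V z * log z → exp (-γ)`. For `z ≥ 5`, `(1 - 2 / p) = (1 - 1 / p) ^ 2 * (1 - 1 / (p - 1) ^ 2)`, so
`Gz z = V z ^ 2 / ((1 / 2) * (2 / 3)) ^ 2 * ∏_{p ∈ Ps z} (1 - 1 / (p - 1) ^ 2)`, and the last product is
in `[3 / 4, 1]`: it is at least `∏_{m=4}^{z} (1 - 1 / m ^ 2) = (3 / 4) * (z + 1) / z` (telescoping,
induction). -/
def GZLG : Prop :=
  ∃ c C : ℝ, 0 < c ∧ ∀ᶠ z : ℕ in atTop, c ≤ Gz z * Real.log z ^ 2 ∧ Gz z * Real.log z ^ 2 ≤ C

end Pool.Agent.Helper76.TB
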