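import Pool.Agent.Helper76.TB.Iface

/-!
# Basic facts on the local statistic
-/

set_option autoImplicit false

open Finset Filter Topology

namespace Pool.Agent.Helper76.TB

open Pool.Agent.Helper90.Twin (Ps Gz Xz sieveSys GG)

theorem sum_window (X : ℕ → ℝ) (H t : ℕ) :
    ∑ g ∈ Icc 1 H, X (t + g) * ∏ i ∈ Ioo 0 g, (1 - X (t + i)) = 1 - ∏ i ∈ Icc 1 H, (1 - X (t + i)) := by
  induction H with
  | zero => simp
  | succ H ih =>
    have h1 : Icc 1 (H + 1) = insert (H + 1) (Icc 1 H) := by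
      ext x
      simp only [mem_Icc, mem_insert]
      omega
    have h2 : H + 1 ∉ Icc 1 H := by
      rw [mem_Icc]
      omega
    have h3 : Ioo 0 (H + 1) = Icc 1 H := by
      ext x
      simp only [mem_Icc, mem_Ioo]
      omega
    rw [h1, Finset.sum_insert h2, Finset.prod_insert h2, ih, h3]
    ring

theorem phi_one (X : ℕ → ℝ) (H t : ℕ) :
    X t - phi (fun _ => 1) X H t = X t * ∏ i ∈ Icc 1 H, (1 - X (t + i)) := by
  unfold phi
  simp only [one_mul]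
  rw [sum_window]
  ring

theorem abs_phi_le {c : ℕ → ℝ} (hc : ∀ g, |c g| ≤ 1) {X : ℕ → ℝ} (hX : ∀ n, X n = 0 ∨ X n = 1)
    (H t : ℕ) : |phi c X H t| ≤ X t := by
  have h0 : ∀ n, 0 ≤ X n := fun n => by rcases hX n with h | h <;> rw [h]; norm_num
  have h1 : ∀ n, 0 ≤ 1 - X n := fun n => by rcases hX n with h | h <;> rw [h] <;> norm_num
  unfold phi
  rw [abs_mul, abs_of_nonneg (h0 t)]
  have h2 : |∑ g ∈ Icc 1 H, c g * X (t + g) * ∏ i ∈ Ioo 0 g, (1 - X (t + i))| ≤ 1 := by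
    refine (Finset.abs_sum_le_sum_abs _ _).trans ?_
    have h3 : ∑ g ∈ Icc 1 H, |c g * X (t + g) * ∏ i ∈ Ioo 0 g, (1 - X (t + i))|
        ≤ ∑ g ∈ Icc 1 H, X (t + g) * ∏ i ∈ Ioo 0 g, (1 - X (t + i)) := by
      apply Finset.sum_le_sum
      intro g _
      have h4 : 0 ≤ ∏ i ∈ Ioo 0 g, (1 - X (t + i)) := Finset.prod_nonneg (fun i _ => h1 _)
      rw [abs_mul, abs_mul, abs_of_nonneg h4, abs_of_nonneg (h0 _)]
      apply mul_le_mul_of_nonneg_right _ h4
      calc |c g| * X (t + g) ≤ 1 * X (t + g) := mul_le_mul_of_nonneg_right (hc g) (h0 _)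
        _ = X (t + g) := one_mul _
    refine h3.trans ?_
    rw [sum_window]
    have h5 : 0 ≤ ∏ i ∈ Icc 1 H, (1 - X (t + i)) := Finset.prod_nonneg (fun i _ => h1 _)
    linarith
  calc X t * |∑ g ∈ Icc 1 H, c g * X (t + g) * ∏ i ∈ Ioo 0 g, (1 - X (t + i))| ≤ X t * 1 :=
        mul_le_mul_of_nonneg_left h2 (h0 t)
    _ = X t := mul_one _

theorem sg_abs (g : ℕ) : |sg g| ≤ 1 := by
  unfold sg
  rw [abs_pow, abs_neg, abs_one, one_pow]

theorem abs_PAH_le {c : ℕ → ℝ} (hc : ∀ g, |c g| ≤ 1) (z H : ℕ) : |PAH z H c| ≤ Gz z := by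
  have hQ := (sieveSys z).Q_pos
  have h1 := (sieveSys z).avg_one 0
  unfold PAH
  rw [abs_div, abs_of_pos hQ]
  unfold Gz
  rw [← h1]
  apply div_le_div_of_nonneg_right _ hQ.le
  refine (Finset.abs_sum_le_sum_abs _ _).trans ?_
  apply Finset.sum_le_sum
  intro t _
  exact abs_phi_le hc (fun n => (sieveSys z).XX_zero_one n) H t

theorem abs_PA_le {c : ℕ → ℝ} (hc : ∀ g, |c g| ≤ 1) (z : ℕ) : |PA z c| ≤ Gz z := abs_PAH_le hc z _

theorem abs_DD_le (z : ℕ) : |DD z| ≤ 1 := by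
  unfold DD
  have h := Helper90.Twin.Gz_pos z
  rw [abs_div, abs_of_pos h, div_le_one h]
  exact abs_PA_le sg_abs z

theorem DD_mul (z : ℕ) : DD z * Gz z = PA z sg := by
  unfold DD
  exact div_mul_cancel₀ _ (Helper90.Twin.Gz_pos z).ne'

end Pool.Agent.Helper76.TB
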