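import Pool.Agent.Helper76.TB.Basic
import Pool.Agent.Helper33.TB.Goals

/-!
# From the core theorem of helper33 to `COREG` and `LONGG`
-/

set_option autoImplicit false

open Finset Filter Topology

namespace Pool.Agent.Helper76.TB

open Pool.Agent.Helper90.Twin (Ps Gz Xz sieveSys sig)
open Pool.Agent.Helper33.TB (StmtXSB StmtCORE StmtLG XS QS Pc nx nd Dz)

theorem Xz_01 (z n : ℕ) : Xz z n = 0 ∨ Xz z n = 1 := (sieveSys z).XX_zero_one n

theorem XS_nat (hX : StmtXSB) (z t i : ℕ) : XS (Ps z) ((t : ℤ) + (i : ℤ)) = Xz z (t + i) := by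
  have h := hX.nat z (t + i)
  push_cast at h
  exact h

theorem Pc_nat (hX : StmtXSB) (z H t : ℕ) :
    Pc (XS (Ps z)) 1 H (t : ℤ) = ∏ i ∈ Icc 1 H, (1 - Xz z (t + i)) := by
  unfold Pc
  apply Finset.prod_congr rfl
  intro i _
  rw [XS_nat hX, one_mul]

/-- pointwise comparison of the two signs -/
theorem nx_sub_phi (hX : StmtXSB) (z H t : ℕ) :
    |XS (Ps z) (t : ℤ) * nx (XS (Ps z)) (t : ℤ) - phi sg (Xz z) H t|
      ≤ Xz z t - phi (fun _ => 1) (Xz z) H t := by
  rw [phi_one, hX.nat z t]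
  rcases Xz_01 z t with h0 | h0
  · unfold phi
    rw [h0]
    simp
  · have hphi : phi sg (Xz z) H t = sig (Xz z) H t := by
      unfold phi sig sg
      rw [h0, one_mul]
    rw [hphi, h0, one_mul, one_mul]
    have hnx : |nx (XS (Ps z)) (t : ℤ)| = 1 := by
      unfold nx
      rw [abs_pow, abs_neg, abs_one, one_pow]
    by_cases hex : ∃ i, 1 ≤ i ∧ i ≤ H ∧ Xz z (t + i) = 1
    · obtain ⟨i0, hi1, hiH, hi⟩ := hex
      have hmem : i0 ∈ {h : ℕ | 1 ≤ h ∧ XS (Ps z) ((t : ℤ) + h) = 1} := ⟨hi1, by rw [XS_nat hX]; exact hi⟩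
      have hne : {h : ℕ | 1 ≤ h ∧ XS (Ps z) ((t : ℤ) + h) = 1}.Nonempty := ⟨i0, hmem⟩
      have hg := Nat.sInf_mem hne
      have hle : nd (XS (Ps z)) (t : ℤ) ≤ i0 := Nat.sInf_le hmem
      have hg1 : 1 ≤ nd (XS (Ps z)) (t : ℤ) := hg.1
      have hg2 : Xz z (t + nd (XS (Ps z)) (t : ℤ)) = 1 := by
        rw [← XS_nat hX]
        exact hg.2
      have hbet : ∀ i, 0 < i → i < nd (XS (Ps z)) (t : ℤ) → Xz z (t + i) = 0 := by
        intro i h1 h2
        rcases Xz_01 z (t + i) with h | h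
        · exact h
        · exfalso
          have h3 : i ∈ {h : ℕ | 1 ≤ h ∧ XS (Ps z) ((t : ℤ) + h) = 1} :=
            ⟨h1, by rw [XS_nat hX]; exact h⟩
          exact absurd (Nat.sInf_le h3) (not_le.2 h2)
      have hs := Helper90.Twin.sig_of_next hg1 (hle.trans hiH) hg2 hbet
      rw [hs]
      have : nx (XS (Ps z)) (t : ℤ) = (-1) ^ nd (XS (Ps z)) (t : ℤ) := rfl
      rw [this, sub_self, abs_zero]
      exact Finset.prod_nonneg (fun i _ => by rcases Xz_01 z (t + i) with h | h <;> rw [h] <;> norm_num)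
    · push Not at hex
      have hz : ∀ i, 0 < i → i ≤ H → Xz z (t + i) = 0 := by
        intro i h1 h2
        rcases Xz_01 z (t + i) with h | h
        · exact h
        · exact absurd h (hex i h1 h2)
      have hs := Helper90.Twin.sig_of_no_next hz
      rw [hs, sub_zero, hnx]
      rw [Finset.prod_eq_one]
      intro i hi
      rw [mem_Icc] at hi
      rw [hz i hi.1 hi.2, sub_zero]

theorem Gz_sub_PAH (z H : ℕ) :
    Gz z - PAH z H (fun _ => 1)
      = (∑ t ∈ range (∏ p ∈ Ps z, p), (Xz z t - phi (fun _ => 1) (Xz z) H t)) /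
        ((∏ p ∈ Ps z, p : ℕ) : ℝ) := by
  have h1 := (sieveSys z).avg_one 0
  simp only [add_zero] at h1
  rw [Finset.sum_sub_distrib, sub_div]
  unfold PAH Gz
  rw [← h1]
  rfl

theorem Dz_sub_DD (hX : StmtXSB) (z : ℕ) : |Dz z - DD z| ≤ (Gz z - PA z (fun _ => 1)) / Gz z := by
  have hG := Helper90.Twin.Gz_pos z
  have hQ := (sieveSys z).Q_pos
  unfold Dz DD
  rw [← sub_div, abs_div, abs_of_pos hG]
  apply div_le_div_of_nonneg_right _ hG.le
  unfold PA
  rw [Gz_sub_PAH]
  unfold PAH Helper33.TB.Av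
  have hQS : QS (Ps z) = ∏ p ∈ Ps z, p := rfl
  rw [hQS, ← sub_div, abs_div, abs_of_pos hQ, ← Finset.sum_sub_distrib]
  apply div_le_div_of_nonneg_right _ hQ.le
  refine (Finset.abs_sum_le_sum_abs _ _).trans ?_
  exact Finset.sum_le_sum (fun t _ => nx_sub_phi hX z (HH z) t)

theorem tendsto_log : Tendsto (fun z : ℕ => Real.log (z : ℝ)) atTop atTop :=
  Real.tendsto_log_atTop.comp tendsto_natCast_atTop_atTop

theorem tendsto_l2 : Tendsto l2 atTop atTop :=
  Real.tendsto_log_atTop.comp tendsto_log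

/-- the long gaps -/
theorem long_strong (hX : StmtXSB) (hLG : StmtLG) (hG : GZLG) :
    ∀ᶠ z : ℕ in atTop, Gz z - PA z (fun _ => 1) ≤ Gz z / Real.log z ^ 12 := by
  obtain ⟨c, C, hc, hev⟩ := hG
  -- `l2 z ≤ η log z`
  have h1 : ∀ᶠ x : ℝ in atTop, ‖Real.log x‖ ≤ (c / 400) * ‖id x‖ :=
    (Asymptotics.isLittleO_iff.1 Real.isLittleO_log_id_atTop) (by positivity)
  filter_upwards [hLG 100 (by norm_num), hev, tendsto_log.eventually h1,
    tendsto_log.eventually_ge_atTop 2, tendsto_l2.eventually_ge_atTop 1] with z hz hz2 hz3 hz4 hz5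
  have hGz := Helper90.Twin.Gz_pos z
  have hGz1 := Helper90.Twin.Gz_le_one z
  have hlog : 0 < Real.log z := by linarith
  have hH1 : ((100 : ℕ) : ℝ) * Real.log (Real.log z) / Gz z ≤ HH z := by
    have := Nat.le_ceil (100 * l2 z / Gz z)
    push_cast
    exact this
  have hH2 : (HH z : ℝ) ≤ Real.log z ^ 3 := by
    have h5 : 0 ≤ 100 * l2 z / Gz z := by
      apply div_nonneg _ hGz.le
      linarith
    have h6 : (HH z : ℝ) < 100 * l2 z / Gz z + 1 := Nat.ceil_lt_add_one h5
    have h7 : l2 z ≤ (c / 400) * Real.log z := by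
      have := hz3
      rw [Real.norm_eq_abs, Real.norm_eq_abs] at this
      simp only [id] at this
      rw [abs_of_pos hlog] at this
      exact (le_abs_self _).trans this
    have h8 : 1 / Gz z ≤ Real.log z ^ 2 / c := by
      rw [div_le_div_iff₀ hGz hc]
      linarith [hz2.1]
    have h9 : 100 * l2 z / Gz z ≤ 100 * ((c / 400) * Real.log z) * (Real.log z ^ 2 / c) := by
      have e : 100 * l2 z / Gz z = 100 * l2 z * (1 / Gz z) := by ring
      rw [e]
      apply mul_le_mul (by linarith) h8 (by positivity) (by positivity)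
    have h10 : 100 * ((c / 400) * Real.log z) * (Real.log z ^ 2 / c) = Real.log z ^ 3 / 4 := by
      field_simp
      ring
    have h11 : (8 : ℝ) ≤ Real.log z ^ 3 := by
      calc (8 : ℝ) = 2 ^ 3 := by norm_num
        _ ≤ Real.log z ^ 3 := pow_le_pow_left₀ (by norm_num) hz4 3
    linarith
  have h3 := hz (HH z) hH1 hH2
  have h4 : Gz z - PA z (fun _ => 1)
      = Helper33.TB.Av (QS (Ps z)) (fun t => XS (Ps z) t * Pc (XS (Ps z)) 1 (HH z) t) := by
    unfold PA
    rw [Gz_sub_PAH]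
    unfold Helper33.TB.Av
    have hQS : QS (Ps z) = ∏ p ∈ Ps z, p := rfl
    rw [hQS]
    congr 1
    apply Finset.sum_congr rfl
    intro t _
    show _ = XS (Ps z) (t : ℤ) * Pc (XS (Ps z)) 1 (HH z) (t : ℤ)
    rw [phi_one, Pc_nat hX, hX.nat z t]
  rw [h4]
  refine h3.trans ?_
  apply div_le_div_of_nonneg_left hGz.le (by positivity)
  have h5 : Real.log z ^ (12 : ℕ) = Real.log z ^ ((12 : ℕ) : ℝ) := (Real.rpow_natCast _ _).symm
  rw [h5]
  apply Real.rpow_le_rpow_of_exponent_le (by linarith)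
  push_cast
  norm_num

theorem longg (hX : StmtXSB) (hLG : StmtLG) (hG : GZLG) : LONGG := by
  unfold LONGG
  filter_upwards [long_strong hX hLG hG, tendsto_log.eventually_ge_atTop 2] with z h1 h2
  refine h1.trans ?_
  have hGz := Helper90.Twin.Gz_pos z
  have hGz1 := Helper90.Twin.Gz_le_one z
  have h3 : Real.log z ^ 6 ≤ Real.log z ^ 12 := pow_le_pow_right₀ (by linarith) (by norm_num)
  exact div_le_div₀ zero_le_one hGz1 (by positivity) h3

theorem core' (hX : StmtXSB) (hLG : StmtLG) (hG : GZLG) (hC : StmtCORE) : COREG := by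
  unfold COREG
  have hG' := long_strong hX hLG hG
  have hzero : Tendsto (fun z : ℕ => (Real.log z / l2 z) ^ 2 * (DD z - Dz z)) atTop (𝓝 0) := by
    have hb : Tendsto (fun z : ℕ => 1 / Real.log z) atTop (𝓝 0) := by
      simp_rw [one_div]
      exact tendsto_log.inv_tendsto_atTop
    refine squeeze_zero_norm' ?_ hb
    filter_upwards [hG', tendsto_log.eventually_ge_atTop 2, tendsto_l2.eventually_ge_atTop 1]
      with z h1 h2 h3
    have hGz := Helper90.Twin.Gz_pos z
    have h4 : |DD z - Dz z| ≤ 1 / Real.log z ^ 12 := by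
      rw [abs_sub_comm]
      refine (Dz_sub_DD hX z).trans ?_
      rw [div_le_iff₀ hGz]
      calc Gz z - PA z (fun _ => 1) ≤ Gz z / Real.log z ^ 12 := h1
        _ = 1 / Real.log z ^ 12 * Gz z := by ring
    have h5 : (Real.log z / l2 z) ^ 2 ≤ Real.log z ^ 2 := by
      apply pow_le_pow_left₀ (div_nonneg (by linarith) (by linarith))
      exact div_le_self (by linarith) h3
    rw [Real.norm_eq_abs, abs_mul, abs_of_nonneg (sq_nonneg _)]
    have h6 : (Real.log z / l2 z) ^ 2 * |DD z - Dz z| ≤ Real.log z ^ 2 * (1 / Real.log z ^ 12) :=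
      mul_le_mul h5 h4 (abs_nonneg _) (sq_nonneg _)
    refine h6.trans ?_
    have hlog : 0 < Real.log z := by linarith
    have h7 : Real.log z ^ 2 * (1 / Real.log z ^ 12) = 1 / Real.log z ^ 10 := by
      field_simp
    rw [h7]
    apply div_le_div_of_nonneg_left zero_le_one hlog
    calc Real.log z = Real.log z ^ 1 := (pow_one _).symm
      _ ≤ Real.log z ^ 10 := pow_le_pow_right₀ (by linarith) (by norm_num)
  have hsum := hzero.add hC
  rw [zero_add] at hsum
  refine hsum.congr' ?_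
  filter_upwards with z
  unfold l2
  ring

end Pool.Agent.Helper76.TB
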