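import Pool.Agent.Helper60.BFT.GoalsC
import Pool.Agent.Helper60.BFT.AvBasic

/-!
# Project TB: definitions for the uniform version and for the random sieve

`Ps z` = primes in `[5, z]`, `Gz z = ∏ (1 - 2 / p)`, `Xz z t` = indicator that no prime of `Ps z`
divides `6 t + 5` or `6 t + 7`, `XA Z B t` = the same with arbitrary classes.
-/

set_option autoImplicit false

open Finset Filter Topology MeasureTheory ProbabilityTheory

namespace Pool.Agent.Helper76.TB

open Pool.Agent.Helper90.Twin (Ps Gz Sz XX yy Xz avgI errB sig)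
open Pool.Agent.Helper60.BFT (XA yA Av lg B0 B1 B2 run chi len YF YP Pair T0 T1 T2 Rem mT)

/-- the signs -/
noncomputable def sg (g : ℕ) : ℝ := (-1 : ℝ) ^ g

/-- the local statistic: if `t` is chosen and the next chosen element is `t + g` with `g ≤ H`, then
`c g`, otherwise `0` -/
noncomputable def phi (c : ℕ → ℝ) (X : ℕ → ℝ) (H t : ℕ) : ℝ :=
  X t * ∑ g ∈ Icc 1 H, c g * X (t + g) * ∏ i ∈ Ioo 0 g, (1 - X (t + i))

/-- full-period average of `phi` -/
noncomputable def PAH (z H : ℕ) (c : ℕ → ℝ) : ℝ :=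
  (∑ t ∈ range (∏ p ∈ Ps z, p), phi c (Xz z) H t) / ((∏ p ∈ Ps z, p : ℕ) : ℝ)

/-- `log log z` -/
noncomputable def l2 (z : ℕ) : ℝ := Real.log (Real.log z)

/-- the window -/
noncomputable def HH (z : ℕ) : ℕ := ⌈100 * l2 z / Gz z⌉₊

/-- full-period average with the window `HH z` -/
noncomputable def PA (z : ℕ) (c : ℕ → ℝ) : ℝ := PAH z (HH z) c

/-- the mean sign of the next element, relative to the density -/
noncomputable def DD (z : ℕ) : ℝ := PA z sg / Gz z

/-- full-period average of the `k`-th elementary symmetric function of the indicators in the window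
`[1, H]`, that is of the binomial coefficient `n choose k`, `n` the number of chosen elements -/
noncomputable def TL (z H k : ℕ) : ℝ :=
  (∑ u ∈ range (∏ p ∈ Ps z, p), ∑ J ∈ (Icc 1 H).powersetCard k, ∏ i ∈ J, Xz z (u + i)) /
    ((∏ p ∈ Ps z, p : ℕ) : ℝ)

/-- the rate `(log log z / log z) ^ 2` -/
noncomputable def vv (z : ℕ) : ℝ := (l2 z / Real.log z) ^ 2

/-! ### The random sieve -/

/-- the threshold between the arbitrary and the random classes -/
structure Thr (ρ : ℕ → ℕ) : Prop where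
  le : ∀ s, ρ s ≤ s
  low : ∀ᶠ s : ℕ in atTop, Real.log s ^ 20 ≤ ρ s
  high : Tendsto (fun s : ℕ => Real.log (ρ s) * Real.log (Real.log s) ^ 2 / Real.log s) atTop (𝓝 0)

/-- the cutoff: `log (Z n) / log n → c` -/
structure CutL (c : ℝ) (Z : ℕ → ℕ) : Prop where
  mono : Monotone Z
  le : ∀ n, Z n ≤ n
  lim : Tendsto (fun n : ℕ => Real.log (Z n) / Real.log n) atTop (𝓝 c)

/-- the classes modulo `p ≤ ρ r` depend only on the classes modulo `q ≤ ρ r`, the classes modulo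
`p > ρ r` are the given ones -/
structure AdH (ρ : ℕ → ℕ) (β : ℕ → ℕ → (ℕ → ℕ) → ℕ) : Prop where
  small : ∀ r p : ℕ, p ≤ ρ r → ∀ a a' : ℕ → ℕ, (∀ q ≤ ρ r, a q = a' q) → β r p a = β r p a'
  large : ∀ r p : ℕ, ρ r < p → ∀ a : ℕ → ℕ, β r p a = a p

/-- average over the classes modulo the primes in `(ρ r, Z (r ^ 4)]` -/
noncomputable def EE2 (ρ Z : ℕ → ℕ) (T : (ℕ → ℕ) → ℝ) (r : ℕ) (a : ℕ → ℕ) : ℝ :=
  Av (lg (ρ r) (Z (r ^ 4))) T a

/-- the total deviation in the block `[r ^ 4, (r + 1) ^ 4)` -/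
noncomputable def Dev2 (ρ Z : ℕ → ℕ) (β : ℕ → ℕ → (ℕ → ℕ) → ℕ) (r : ℕ) (a : ℕ → ℕ) : ℝ :=
  |T0 4 Z β r a - EE2 ρ Z (T0 4 Z β r) r a| + |T1 4 Z β r a - EE2 ρ Z (T1 4 Z β r) r a|
    + |T2 4 Z β r a - EE2 ρ Z (T2 4 Z β r) r a| + Rem 4 Z β r a

/-- the main terms of the blocks -/
noncomputable def WW (Z : ℕ → ℕ) (R : ℕ) : ℝ := ∑ r ∈ range R, mT 4 Z r

/-- the weighted mean of `DD` -/
noncomputable def DW (Z : ℕ → ℕ) (R : ℕ) : ℝ :=
  (∑ r ∈ range R, mT 4 Z r * DD (Z (r ^ 4))) / WW Z R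

end Pool.Agent.Helper76.TB
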