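import Pool.Agent.Helper76.TB.GoalsT
import Pool.Agent.Helper88.BFT.PthEnum

/-!
# DELTA2: the transition frequencies in terms of the three sums
-/

set_option autoImplicit false

open Finset Filter Topology

namespace Pool.Agent.Helper76.TB

open Pool.Agent.Helper60.BFT (run chi delta count₁ count₂)
open Pool.Agent.Helper88.BFT (gg gg_abs run_nth sum_nth count₁_eq count₂_eq)

open Classical in
theorem ind_eq (P : ℕ → Prop) : ind P = fun n => if P n then (1 : ℝ) else 0 := by
  funext n
  unfold ind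
  rfl

open Classical in
theorem delta2 : DELTA2G := by
  intro P hinf hodd x e W D he0 he hD hW hM h1 h2 a b ha hb
  rw [ind_eq] at hM h1 h2
  set M := Nat.count P (x + 1) with hMdef
  set S1 := ∑ i ∈ range M, gg P i with hS1
  set S2 := ∑ i ∈ range M, gg P i * gg P (i + 1) with hS2
  have hWpos : 0 < W := by
    by_contra hcon
    push Not at hcon
    nlinarith
  -- translate the sums
  have hMsum : (M : ℝ) = ∑ n ∈ range (x + 1), (if P n then (1 : ℝ) else 0) := by
    have := sum_nth hinf (x + 1) (fun _ => (1 : ℝ))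
    simp only [Finset.sum_const, Finset.card_range, nsmul_eq_mul, mul_one] at this
    exact this
  have hS1sum : S1 = ∑ n ∈ range (x + 1), (if P n then (1 : ℝ) else 0) * chi n := by
    have := sum_nth hinf (x + 1) chi
    rw [hS1]
    unfold gg
    exact this
  rw [← hMsum] at hM
  rw [← hS1sum] at h1
  have hM' := abs_le.1 hM
  have hMpos : 1 ≤ M := by
    have h3 : 0 < (M : ℝ) := by
      have : e * W ≤ (1 / 100) * W := mul_le_mul_of_nonneg_right he hWpos.le
      linarith [hM'.1]
    exact_mod_cast h3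
  have hS2' : |S2 - D * W| ≤ e * W + 1 := by
    obtain ⟨m, hm⟩ : ∃ m, M = m + 1 := ⟨M - 1, by omega⟩
    have e1 := (run_nth P (x + 1)).1
    rw [← hMdef, hm, Nat.add_sub_cancel] at e1
    rw [e1] at h2
    rw [hS2, hm, Finset.sum_range_succ]
    have e2 : ∑ i ∈ range m, gg P i * gg P (i + 1) + gg P m * gg P (m + 1) - D * W
        = (∑ i ∈ range m, gg P i * gg P (i + 1) - D * W) + gg P m * gg P (m + 1) := by ring
    rw [e2]
    refine (abs_add_le _ _).trans ?_
    have : |gg P m * gg P (m + 1)| = 1 := by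
      rw [abs_mul, gg_abs, gg_abs, one_mul]
    linarith
  -- the shifted sum
  have hshift : ∑ i ∈ range M, gg P (i + 1) = S1 + gg P M - gg P 0 := by
    have e1 : ∑ i ∈ range (M + 1), gg P i = S1 + gg P M := Finset.sum_range_succ _ _
    have e2 : ∑ i ∈ range (M + 1), gg P i = ∑ i ∈ range M, gg P (i + 1) + gg P 0 :=
      Finset.sum_range_succ' _ _
    linarith
  have hgM := gg_abs P M
  have hg0 := gg_abs P 0
  set εa : ℝ := if a = 1 then (1 : ℝ) else -1 with hεa
  set εb : ℝ := if b = 1 then (1 : ℝ) else -1 with hεb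
  have hεa1 : |εa| = 1 := by
    rw [hεa]
    split_ifs <;> simp
  have hεb1 : |εb| = 1 := by
    rw [hεb]
    split_ifs <;> simp
  have hab : (if a = b then (1 : ℝ) else -1) = εa * εb := by
    rw [hεa, hεb]
    rcases ha with rfl | rfl <;> rcases hb with rfl | rfl <;> norm_num
  have hc1 : (count₁ P x a : ℝ) = (M + εa * S1) / 2 := by
    rw [count₁_eq hinf hodd x ha, ← Finset.sum_div, Finset.sum_add_distrib, ← Finset.mul_sum]
    simp [hMdef, hS1, hεa]
  have hc2 : (count₂ P x a b : ℝ)
      = (M + εa * S1 + εb * (S1 + gg P M - gg P 0) + εa * εb * S2) / 4 := by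
    rw [count₂_eq hinf hodd x ha hb]
    have e1 : ∀ i, ((1 + εa * gg P i) / 2) * ((1 + εb * gg P (i + 1)) / 2)
        = (1 + εa * gg P i + εb * gg P (i + 1) + εa * εb * (gg P i * gg P (i + 1))) / 4 := by
      intro i
      ring
    simp_rw [← hεa, ← hεb, e1]
    rw [← Finset.sum_div, Finset.sum_add_distrib, Finset.sum_add_distrib,
      Finset.sum_add_distrib, ← Finset.mul_sum, ← Finset.mul_sum, ← Finset.mul_sum, hshift]
    simp [hMdef, hS1, hS2]
  have b1 : |εa * S1| ≤ e * W := by rw [abs_mul, hεa1, one_mul]; exact h1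
  have b2 : |εb * (S1 + gg P M - gg P 0)| ≤ e * W + 2 := by
    rw [abs_mul, hεb1, one_mul]
    have e1 : |S1 + gg P M - gg P 0| ≤ |S1| + |gg P M| + |gg P 0| := by
      calc |S1 + gg P M - gg P 0| ≤ |S1 + gg P M| + |gg P 0| := abs_sub _ _
        _ ≤ _ := add_le_add (abs_add_le _ _) le_rfl
    rw [hgM, hg0] at e1
    linarith
  have b3 : |εa * εb * (S2 - D * (M + εa * S1))| ≤ 3 * (e * W) + 1 := by
    rw [abs_mul, abs_mul, hεa1, hεb1, one_mul, one_mul]
    have e1 : S2 - D * (M + εa * S1) = (S2 - D * W) + (-(D * (M - W))) + (-(D * (εa * S1))) := by ring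
    have e2 : |-(D * (M - W))| ≤ e * W := by
      rw [abs_neg, abs_mul]
      calc |D| * |(M : ℝ) - W| ≤ 1 * (e * W) := mul_le_mul hD hM (abs_nonneg _) (by norm_num)
        _ = e * W := one_mul _
    have e3 : |-(D * (εa * S1))| ≤ e * W := by
      rw [abs_neg, abs_mul]
      calc |D| * |εa * S1| ≤ 1 * (e * W) := mul_le_mul hD b1 (abs_nonneg _) (by norm_num)
        _ = e * W := one_mul _
    rw [e1]
    have e4 := abs_add_le ((S2 - D * W) + (-(D * (M - W)))) (-(D * (εa * S1)))
    have e5 := abs_add_le (S2 - D * W) (-(D * (M - W)))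
    linarith
  have b1' := abs_le.1 b1
  have b2' := abs_le.1 b2
  have b3' := abs_le.1 b3
  have hcge : (19 / 20) * W ≤ (M : ℝ) + εa * S1 := by
    have : e * W ≤ (1 / 100) * W := mul_le_mul_of_nonneg_right he hWpos.le
    linarith [b1'.1, hM'.1]
  have hcpos : 0 < (M : ℝ) + εa * S1 := by
    have : 0 < (19 / 20) * W := by positivity
    linarith
  unfold delta
  rw [hab, hc1, hc2]
  have e5 : (M + εa * S1 + εb * (S1 + gg P M - gg P 0) + εa * εb * S2) / 4 / ((M + εa * S1) / 2) - 1 / 2
      - εa * εb * (D / 2)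
      = (εb * (S1 + gg P M - gg P 0) + εa * εb * (S2 - D * (M + εa * S1))) / (2 * (M + εa * S1)) := by
    field_simp
    ring
  rw [e5, abs_div, abs_of_pos (by positivity : (0 : ℝ) < 2 * ((M : ℝ) + εa * S1)),
    div_le_iff₀ (by positivity)]
  have e6 : |εb * (S1 + gg P M - gg P 0) + εa * εb * (S2 - D * (M + εa * S1))|
      ≤ 4 * (e * W) + 3 := by
    refine (abs_add_le _ _).trans ?_
    linarith
  refine e6.trans ?_
  have e7 : 8 * e * ((19 / 20) * W) ≤ 8 * e * ((M : ℝ) + εa * S1) :=
    mul_le_mul_of_nonneg_left hcge (by linarith)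
  nlinarith

end Pool.Agent.Helper76.TB
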