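import Pool.Agent.Helper76.TB.GoalsT

/-!
# Project TB, second version of the uniform part: all `x`, and the optimal thresholds

The pure sieve of the first version (level `exp (C (log log Z) ^ 2 log r)`) is replaced by the
fundamental lemma `Helper90.Twin.sv_rec`, whose dependence on the dimension `κ` is explicit. Notation as
in Goals.lean: `𝓛 F = Av (lg r Z) (fun B => ∑ t ∈ range N, F (XA Z B) t) A`, `𝓜 F` = full-period average for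
`Xz Z`.
-/

set_option autoImplicit false

open Finset Filter Topology MeasureTheory ProbabilityTheory

namespace Pool.Agent.Helper76.TB

open Pool.Agent.Helper90.Twin (Ps Gz Sz XX yy Xz avgI errB sig SieveSys)
open Pool.Agent.Helper60.BFT (XA yA Av lg B0 B1 B2 run chi len YF YP Pair T0 T1 T2 Rem mT Uni root delta)

/-- full-period average of `X_u` times the `k`-th elementary symmetric function in the window -/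
noncomputable def TZ (z H k : ℕ) : ℝ :=
  (∑ u ∈ range (∏ p ∈ Ps z, p),
    Xz z u * ∑ J ∈ (Icc 1 H).powersetCard k, ∏ i ∈ J, Xz z (u + i)) / ((∏ p ∈ Ps z, p : ℕ) : ℝ)

/-- relative error of the fundamental lemma for correlations of order `≤ k` -/
noncomputable def sgm (k M : ℕ) : ℝ := Real.exp (72 * k) * ((24 * k) ^ M / (M.factorial : ℝ))

/-- absolute error of the fundamental lemma for correlations of order `≤ k` -/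
noncomputable def errU (r b k m M N : ℕ) : ℝ :=
  3 * N * ((2 * k * Sz b) ^ m / (m.factorial : ℝ)) + (1 + 2 * k * (b : ℝ)) ^ m * (r : ℝ) ^ (4 * M + 9)

/-- the relative error of the uniform theorem -/
noncomputable def EU (c C : ℝ) (Z r N : ℕ) : ℝ :=
  C * (Real.exp (-(c * (Real.log N / Real.log r))) + 1 / Real.log Z ^ 6)

/-- CORR2: the averaged correlations, relative error.

Proof. As `Helper17.TB.corr` (CORR), with `Helper90.Twin.sv_rec` (TwinR) in place of `corr`/`brun`: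
`w = wI (yA A) I` (`Helper32.BFT.wI_admA`, dimension `2 |I| ≤ 2 k`), `κ = 2 k`, `b = sqrt^[J] r`, `m0 = m`,
`e = (2 k * Sz b) ^ m / m!` (`EE_le`: `EE (Ps b) (fun p => nu w p / p) m ≤ (∑ p ∈ Ps b, nu w p / p) ^ m / m!`),
`W = ∏ p ∈ Ps r, (1 - nu w p / p) = avgI (Ps r) (yA A) I` (`avg_prod`, as in `corr`). `Sv.final` gives
`|∑ t ∈ range N, ∏ i ∈ I, XA r A (t + i) - N W| ≤ 2 σ N W + 3 N e + (J + 2) Λ`, `σ = sg κ J M ≤ sgm k M ≤ 1 / 2`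
(`sg_le`), `Λ = (1 + 2 k * #Ps b) ^ m * r ^ (4 M + 8)`, `#Ps b ≤ b` (`card_Ps_le`), and `J + 2 ≤ r` because
`b ^ (2 ^ J) ≤ r` (`iterate_sqrt_pow_le`) and `b ≥ 2`, `J + 2 ≤ 2 ^ (2 ^ J)`. Then LOCAL
(`Helper35.TB.loc`): the average over the classes modulo `p ∈ (r, Z]` multiplies by
`avgI (Ps Z \ Ps r) yy I ∈ [0, 1]`, and INV (`Helper12.TB.inv`):
`avgI (Ps Z \ Ps r) yy I * avgI (Ps r) (yA A) I = avgI (Ps Z) yy I`. Second part: `w p t = yA A p (2 t)`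
(`Helper32.BFT.adm_yA2`, `mean_yA2`), LOCAL at `2 t` with `I = {0}`. -/
def CORR2G : Prop :=
  ∀ (r Z J k m M N : ℕ), r ≤ Z → 1 ≤ k → Odd m → Odd M → 4 * k + 2 ≤ Nat.sqrt^[J] r →
    sgm k M ≤ 1 / 2 →
    (∀ I : Finset ℕ, I.card ≤ k → ∀ A : ℕ → ℕ,
      |Av (lg r Z) (fun B => ∑ t ∈ range N, ∏ i ∈ I, XA Z B (t + i)) A - N * avgI (Ps Z) yy I|
        ≤ 2 * sgm k M * (N * avgI (Ps Z) yy I) + errU r (Nat.sqrt^[J] r) k m M N) ∧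
    (∀ A : ℕ → ℕ,
      |Av (lg r Z) (fun B => ∑ t ∈ range N, XA Z B (2 * t)) A - N * Gz Z|
        ≤ 2 * sgm k M * (N * Gz Z) + errU r (Nat.sqrt^[J] r) k m M N)

/-- TAIL0: factorial moments of the window, given a chosen element at the left end.

Proof. As `Helper45.TB.tail` (TAIL). `Y = 3 H + 1`. `TZ Z H k = ∑ J ∈ (Icc 1 H).powersetCard k,
avgI (Ps Z) yy (insert 0 J)`, all elements of `insert 0 J` are `≤ H` and there are `k + 1` of them. The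
factor of the primes `p ∈ Ps Z \ Ps Y` is `1 - 2 (k + 1) / p ≤ (1 - 2 / p) ^ (k + 1)`, so
`TZ Z H k ≤ (Gz Z / Gz Y) ^ (k + 1) * TZ Y H k`, and `TZ Y H k` is the average over a period of
`Xz Y u * EE (Icc 1 H) (fun i => Xz Y (u + i)) k ≤ Xz Y u * (∑ i ∈ Icc 1 H, Xz Y (u + i)) ^ k / k!
≤ Xz Y u * (C * (H * Gz Y)) ^ k / k!` (BT), with mean `Gz Y * (C * (H * Gz Y)) ^ k / k!`. -/
def TAIL0G : Prop :=
  ∃ C : ℝ, 1 ≤ C ∧ ∀ᶠ H : ℕ in atTop, ∀ Z : ℕ, 3 * H + 1 ≤ Z → ∀ k : ℕ, 2 * (k + 1) ≤ 3 * H + 1 →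
    TZ Z H k ≤ Gz Z * ((C * (H * Gz Z)) ^ k / (k.factorial : ℝ))

/-- TRANS2: the local statistic.

Proof. As `Helper85.TB.trans` (TRANS), with CORR2 (`k = R + 2`) in place of CORR. With `S_j`, `U` as there,
`𝓜 S_j` for all coefficients `c g = 1` is `TZ Z H (j + 1)`
(`∑ g ∈ Icc 1 H, ∑ J ∈ (Ioo 0 g).powersetCard j, avgI (Ps Z) yy (insert 0 (insert g J)) = TZ Z H (j + 1)`: the sets
`insert g J` are the sets of `(Icc 1 H).powersetCard (j + 1)`, `g` = maximum), so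
`|𝓛 S_j - N * 𝓜 S_j| ≤ 2 sgm N TZ Z H (j + 1) + H ^ (j + 1) * errU`, the same for `U` (`j = R`,
`𝓜 U = TZ Z H (R + 1)`), and `|𝓛 phi - N 𝓜 phi| ≤ 𝓛 U + ∑_{j < R} |𝓛 S_j - N 𝓜 S_j| + N 𝓜 U`. -/
def TRANS2G : Prop :=
  ∀ (r Z J H R m M N : ℕ) (A : ℕ → ℕ) (c : ℕ → ℝ), r ≤ Z → 1 ≤ H → Odd m → Odd M →
    4 * (R + 2) + 2 ≤ Nat.sqrt^[J] r → sgm (R + 2) M ≤ 1 / 2 → (∀ g, |c g| ≤ 1) →
    |Av (lg r Z) (fun B => ∑ t ∈ range N, phi c (XA Z B) H t) A - N * PAH Z H c|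
      ≤ 2 * sgm (R + 2) M * N * (∑ j ∈ range (R + 1), TZ Z H (j + 1))
        + (R + 1) * (H : ℝ) ^ (R + 1) * errU r (Nat.sqrt^[J] r) (R + 2) m M N
        + 2 * N * TZ Z H (R + 1)

/-- SIZE2: choice of the parameters.

Proof. `L = l2 Z` (large), `u = log N / log r`, `lam = H * Gz Z ≥ 1`. Inputs HB (`Helper65.TB.hb`) and GZL
(`Helper47.TB.gzl`). `C1 = 101 * exp 2 * C0 + 30`, `c1 = 1 / (4800 * exp 2 * C0)` (so `u ≥ 1 / c1 ≥ 14400`),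
`c2 = 1 / 4800`, `C = 2`. `k = R + 2 = ⌊min (u / 2400) (C1 * L)⌋ ≥ 2`; `M = 300 k + 1` (odd);
`m` odd with `m ≥ 200 (C1 + 2) L ^ 2`, `m ≤ 200 (C1 + 2) L ^ 2 + 2`; `J` = the first `j` with
`sqrt^[j] r ≤ exp (sqrt (log Z))` (exists: iterated square roots decrease to `≤ 1`), `b = sqrt^[J] r`.
(1) `b ≥ 4 k + 2`: `4 k + 2 ≤ 4 C1 L + 2 ≤ log Z`; if `J = 0`, `b = r ≥ log Z`; if `J ≥ 1` then
`sqrt^[J-1] r > exp (sqrt (log Z))`, so `b ≥ exp (sqrt (log Z) / 2) - 1 ≥ log Z` (`Z` large).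
(2) `sgm k M = exp (72 k) (24 k) ^ M / M! ≤ exp (72 k) (24 e k / M) ^ M ≤ exp (72 k) (24 e / 300) ^ M
≤ exp (72 k - 300 k) ≤ exp (-228 k)` (`M! ≥ (M / e) ^ M`, `24 e / 300 ≤ 1 / e`), `≤ 1 / 2`.
(3) `k - 1 = R + 1 ≥ exp 2 * C0 * lam`: if `k = ⌊u / 2400⌋`, `k - 1 ≥ u / 2400 - 2 ≥ u / 4800` and `lam ≤ c1 u`; if
`k = ⌊C1 L⌋`, `k - 1 ≥ C1 L - 2 ≥ 101 * exp 2 * C0 * L + 28 L`, `lam ≤ 101 L`. In both cases
`exp (-(k - 1)) ≤ exp (-(u / 4800)) + exp (-28 L) ≤ EU` (`exp (-28 L) = (log Z) ^ (-28)`). So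
`(C0 lam) ^ (R+1) / (R+1)! ≤ (e C0 lam / (R + 1)) ^ (R + 1) ≤ exp (-(R + 1)) ≤ EU` and
`sgm * exp (C0 lam) ≤ exp (-228 k + (k - 1)) ≤ exp (-(k - 1)) ≤ EU`.
(4) `H ≤ 101 L / Gz Z`, and `HH Z ≥ 100 L / Gz Z`, `HH Z ≤ (log Z) ^ 16` (HB), so `H ≤ (log Z) ^ 17`,
`H ^ (R + 1) ≤ exp (17 L k)`, `k ≤ C1 L`; `Sz b ≤ Sz Z ≤ 6 L` (`b ≤ r ≤ Z`). First part of `errU`:
`3 N (12 k L) ^ m / m! ≤ 3 N (12 e C1 L ^ 2 / m) ^ m ≤ 3 N exp (-m)`, and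
`(R + 1) H ^ (R + 1) * 3 * exp (-m) ≤ exp (L + 17 C1 L ^ 2 + 2 - 200 (C1 + 2) L ^ 2) ≤ exp (-40 L)
≤ Gz Z / (log Z) ^ 6` (`Gz Z ≥ c / log ^ 2 Z` by GZL). Second part: `(4 M + 9) log r ≤ (1200 k + 17) log r
≤ (u / 2 + u / 100) log r = 0.51 log N`; `m * log (1 + 2 k b) ≤ (200 (C1 + 2) L ^ 2 + 2) * (L + 1 + sqrt (log Z) + ..)
≤ 0.01 * log Z ≤ 0.02 * log N` for large `Z`; `L + 17 C1 L ^ 2 + 40 L + 1 ≤ 0.01 log Z ≤ 0.02 log N`: the product is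
`≤ N ^ (0.55) * ..`, so `≤ N * exp (-40 L) ≤ N * Gz Z / (log Z) ^ 6`. The sum of both is `≤ N Gz Z EU` (`C = 2`).
(5) `1 ≤ N * Gz Z * EU` since `N ≥ exp (log Z / 2)`, `EU ≥ 2 / (log Z) ^ 6`. (6) `3 H + 1 ≤ 3 (log Z) ^ 17 + 1 ≤ Z`;
`2 (R + 2) ≤ 2 C1 L ≤ 1 / Gz Z ≤ H` (GZL: `1 / Gz Z ≥ (log Z) ^ 2 / C'`). -/
def SIZE2G : Prop :=
  ∀ C0 : ℝ, 1 ≤ C0 → ∃ c1 c2 C : ℝ, 0 < c1 ∧ 0 < c2 ∧ 0 < C ∧ ∀ᶠ Z : ℕ in atTop, ∀ r N H : ℕ,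
    Real.log Z ≤ r → r ≤ Z → Real.log Z ≤ 2 * Real.log N → 1 ≤ H * Gz Z →
    H * Gz Z ≤ c1 * (Real.log N / Real.log r) → H * Gz Z ≤ 101 * l2 Z →
    ∃ J R m M : ℕ, Odd m ∧ Odd M ∧ 4 * (R + 2) + 2 ≤ Nat.sqrt^[J] r ∧ sgm (R + 2) M ≤ 1 / 2 ∧
      2 * (R + 2) ≤ 3 * H + 1 ∧ 3 * H + 1 ≤ Z ∧
      sgm (R + 2) M * Real.exp (C0 * (H * Gz Z)) ≤ EU c2 C Z r N ∧
      (C0 * (H * Gz Z)) ^ (R + 1) / ((R + 1).factorial : ℝ) ≤ EU c2 C Z r N ∧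
      (R + 1) * (H : ℝ) ^ (R + 1) * errU r (Nat.sqrt^[J] r) (R + 2) m M N
        ≤ N * Gz Z * EU c2 C Z r N ∧
      1 ≤ N * Gz Z * EU c2 C Z r N

/-- UNI2: uniformity, relative error.

Proof. `C0` from TAIL0, parameters from SIZE2. `H ≥ 1 / Gz Z → ∞` as `Z → ∞` (GZL), so the eventual statement
of TAIL0 applies to all the `H` here, for all `k ≤ R + 1` (`2 (k + 1) ≤ 2 (R + 2) ≤ 3 H + 1`):
`∑ j ∈ range (R + 1), TZ Z H (j + 1) ≤ Gz Z * exp (C0 * lam)` (exponential series) and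
`TZ Z H (R + 1) ≤ Gz Z * (C0 lam) ^ (R + 1) / (R + 1)!`. TRANS2: the error is
`≤ 2 N Gz sgm exp (C0 lam) + N Gz EU + 2 N Gz EU ≤ 5 N Gz EU`. For `B0`: CORR2 (1) with `I = {0}`, `k = R + 2`
(`avgI (Ps Z) yy {0} = Gz Z`, INV (4)), `errU ≤ (R + 1) H ^ (R + 1) errU`: `≤ 3 N Gz EU`. For `B1`:
`∑ t ∈ range N, (-1) ^ t X t = 2 ∑ t ∈ range M', X (2 t) - ∑ t ∈ range N, X t`, `M' = (N + 1) / 2 ≤ N`, CORR2 (2) for `M'`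
and (1) for `N` (`errU` is monotone in `N`), `|2 M' - N| Gz ≤ 1 ≤ N Gz EU`: `≤ 2 * 3 + 3 + 1 = 10 N Gz EU`.
The constant `C` of UNI2 is `10` times the one of SIZE2. -/
def UNI2G : Prop :=
  ∃ c1 c2 C : ℝ, 0 < c1 ∧ 0 < c2 ∧ 0 < C ∧ ∀ᶠ Z : ℕ in atTop, ∀ r N H : ℕ,
    Real.log Z ≤ r → r ≤ Z → Real.log Z ≤ 2 * Real.log N → 1 ≤ H * Gz Z →
    H * Gz Z ≤ c1 * (Real.log N / Real.log r) → H * Gz Z ≤ 101 * l2 Z → ∀ A : ℕ → ℕ,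
      (∀ c : ℕ → ℝ, (∀ g, |c g| ≤ 1) →
        |Av (lg r Z) (fun B => ∑ t ∈ range N, phi c (XA Z B) H t) A - N * PAH Z H c|
          ≤ N * Gz Z * EU c2 C Z r N) ∧
      |Av (lg r Z) (fun B => B0 (XA Z B) N) A - N * Gz Z| ≤ N * Gz Z * EU c2 C Z r N ∧
      |Av (lg r Z) (fun B => B1 (XA Z B) N) A| ≤ N * Gz Z * EU c2 C Z r N

/-- LGW: long gaps, for all window lengths.

Proof (variant of `Helper33.TB.lg`, same inputs XSB, TL, ST, CC, E2; all proved). `x = log z`,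
`L = ell z ^ m` (a power of `log z`, `m = 40`), `g = Gz z`, `ρ = Gz L`, `τ = g / ρ`, `lam = H g`.
ST: `Gz z - PAH z H 1 = Av (XS_z * Pc XS_z 1 H) ≤ τ * Av (XS_L * Pc XS_L τ H) + 8 (H + 1) ^ 2 / L`, and the last
term is `≤ g / x ^ 6` (`H ≤ x ^ 3 `, `g ≥ c / x ^ 2`, `L ≥ x ^ 39`). Put `b = ⌈sqrt x⌉`, `X = XS (Ps L)`. By
translation invariance and since for `i < b` the product over the positions `i + 1, …, i + H` is at most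
the product over the positions `b + 1, …, H` (`0 ≤ 1 - τ X ≤ 1`), with
`P t = ∏ j ∈ Icc (b + 1) H, (1 - τ X (t + j))`:
`b * Av (X * Pc X τ H) ≤ ∑ i < b, Av (X (t + i) * P t) = Av (Nb X b t * P t) ≤ 2 ρ b * Av P + b * δ`
where `Conc Q X b 1 δ`, `δ = exp (-(b ^ c))` (CC with `ε = 1`; off a set of proportion `δ` the count is
`≤ 2 ρ b`, and it is always `≤ b`, `P ≤ 1`). By TL for the window length `H - b` (translate by `b`),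
`Av P ≤ exp (-(τ ρ (H - b) / 4)) + H δ' ≤ exp (-(lam / 5)) + H exp (-(x ^ c'))` since `H ≥ 1 / g ≥ x` is much
larger than `b`. So `τ * Av (X Pc) ≤ 2 g (exp (-(lam / 5)) + H exp (-(x ^ c'))) + τ δ`, and
`H exp (-(x ^ c')) ≤ x ^ (-6)`, `τ δ ≤ g δ / ρ ≤ g x ^ (-6)`. Conversion to `PAH`: `Helper33.TB.pah_eq` and `Pw_Pc`
(Conv.lean), or `Helper76.TB.Bridge` (`Gz_sub_PAH`, `phi_one`, `Pc_nat`). -/
def LGWG : Prop :=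
  ∃ C : ℝ, 0 < C ∧ ∀ᶠ z : ℕ in atTop, ∀ H : ℕ, 1 ≤ H * Gz z → H * Gz z ≤ 101 * l2 z →
    Gz z - PAH z H (fun _ => 1)
      ≤ Gz z * (C * (Real.exp (-(H * Gz z / 5)) + 1 / Real.log z ^ 6))

/-- MEAN2: the three means for long sums.

Proof. As `Helper17.TB.mean` (MEAN), from UNI2 with `H = HH Z` (`PA = PAH` at `HH Z`), SEQ2, HB, LONG.
`HH Z * Gz Z ≤ 101 l2 Z` (HB), `≥ 100 l2 Z ≥ 1`. If `C ≥ 101 / c1` and `C ≥ 6 / c2` then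
`C * l2 Z * log r ≤ log N` gives `HH Z * Gz Z ≤ c1 log N / log r` and `exp (-(c2 log N / log r)) ≤ exp (-6 l2 Z) =
(log Z) ^ (-6)`, so `EU ≤ 2 C' / (log Z) ^ 6`, and `Gz Z ≤ 1`. Third mean: SEQ2 and LONG as in MEAN. All errors
are `≤ C'' N / (log Z) ^ 6 + 1 ≤ N / (log Z) ^ 5` (`N ≥ exp (log Z / 2)`). -/
def MEAN2G : Prop :=
  ∃ C : ℝ, 1 ≤ C ∧ ∀ᶠ Z : ℕ in atTop, ∀ r N : ℕ, Real.log Z ≤ r → r ≤ Z →
    Real.log Z ≤ 2 * Real.log N → C * l2 Z * Real.log r ≤ Real.log N → ∀ A : ℕ → ℕ,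
      |Av (lg r Z) (fun B => B0 (XA Z B) N) A - N * Gz Z| ≤ N / Real.log Z ^ 5 ∧
      |Av (lg r Z) (fun B => B1 (XA Z B) N) A| ≤ N / Real.log Z ^ 5 ∧
      |Av (lg r Z) (fun B => B2 (XA Z B) N) A - N * PA Z sg| ≤ N / Real.log Z ^ 5

/-- the threshold between the arbitrary and the random classes, optimal form -/
structure Thr2 (ρ : ℕ → ℕ) : Prop where
  le : ∀ s, ρ s ≤ s
  low : ∀ᶠ s : ℕ in atTop, Real.log s ^ 20 ≤ ρ s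
  high : Tendsto (fun s : ℕ => Real.log (ρ s) * Real.log (Real.log s) / Real.log s) atTop (𝓝 0)

/-- EDV3: EDV2 with `Thr2`. Proof: the proof of EDV2 (Helper80) uses `Thr.high` only through
`log (ρ r) / log r → 0`, which also follows from `Thr2.high`. -/
def EDV3G : Prop :=
  ∀ (c : ℝ), 0 < c → ∀ (Z ρ : ℕ → ℕ), CutL c Z → Thr2 ρ → ∃ C : ℝ, ∃ R0 : ℕ, 3 ≤ R0 ∧
    ∀ (Ω : Type) [MeasurableSpace Ω] (μ : Measure Ω) [IsProbabilityMeasure μ] (ω : ℕ → Ω → ℕ),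
      Uni μ ω → ∀ (β : ℕ → ℕ → (ℕ → ℕ) → ℕ), AdH ρ β → ∀ R : ℕ, 3 ≤ R →
        ∑ r ∈ Ico R0 R, ∫ w, Dev2 ρ Z β r (fun p => ω p w) ∂μ ≤ C * ((R : ℝ) ^ 4 / Real.log R ^ 9)

/-- DVS3: DVS2 with `Thr2`. Proof: the proof of DVS2 (Helper64) with EDV3 in place of EDV2. -/
def DVS3G : Prop :=
  ∀ (c : ℝ), 0 < c → ∀ (Z ρ : ℕ → ℕ), CutL c Z → Thr2 ρ →
    ∀ (Ω : Type) [MeasurableSpace Ω] (μ : Measure Ω) [IsProbabilityMeasure μ] (ω : ℕ → Ω → ℕ),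
      Uni μ ω → ∀ (β : ℕ → ℕ → (ℕ → ℕ) → ℕ), AdH ρ β →
        ∀ᵐ w ∂μ, ∀ᶠ R : ℕ in atTop,
          ∑ r ∈ range R, Dev2 ρ Z β r (fun p => ω p w) ≤ (R : ℝ) ^ 4 / Real.log R ^ 5

/-- BLK3: BLK2 with `Thr2`. Proof: the proof of BLK2 (`Helper10.TB.blk2`) with MEAN2 in place of MEAN;
the conditions of MEAN2 at `Zr = Z (r ^ 4)`, `ρ r`, `N ≥ r ^ 2`: `log Zr ≤ 4 log r ≤ 2 log N` (`N ≥ r ^ 2`),
`log Zr ≤ 4 log r ≤ (log r) ^ 20 ≤ ρ r`, `ρ r ≤ Zr` eventually, and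
`C * l2 Zr * log (ρ r) ≤ 2 C log log r * log (ρ r) = o (log r)` by `Thr2.high`. -/
def BLK3G : Prop :=
  ∀ (c : ℝ), 0 < c → ∀ (Z ρ : ℕ → ℕ), CutL c Z → Thr2 ρ → ∃ C : ℝ, ∀ᶠ r : ℕ in atTop,
    ∀ β : ℕ → ℕ → (ℕ → ℕ) → ℕ, AdH ρ β → ∀ a : ℕ → ℕ,
      |EE2 ρ Z (T0 4 Z β r) r a - mT 4 Z r| ≤ C * (len 4 r / Real.log r ^ 5) ∧
      |EE2 ρ Z (T1 4 Z β r) r a| ≤ C * (len 4 r / Real.log r ^ 5) ∧
      |EE2 ρ Z (T2 4 Z β r) r a - mT 4 Z r * DD (Z (r ^ 4))| ≤ C * (len 4 r / Real.log r ^ 5)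

end Pool.Agent.Helper76.TB
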