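import Pool.Agent.Helper76.TB.T2
import Pool.Agent.Helper76.TB.Goals2

/-!
# T2U: rough twin pairs, all `x`
-/

set_option autoImplicit false

open Finset Filter Topology

namespace Pool.Agent.Helper76.TB

open Pool.Agent.Helper90.Twin (Ps Gz XX yy Xz sieveSys)
open Pool.Agent.Helper60.BFT (XA yA Av lg B0 B1 B2 run chi delta count₁ count₂)

/-! ### Two windows -/

theorem phi_window {c : ℕ → ℝ} (hc : ∀ g, |c g| ≤ 1) {X : ℕ → ℝ} (hX : ∀ n, X n = 0 ∨ X n = 1)
    {H H' : ℕ} (hH : H ≤ H') (t : ℕ) :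
    |phi c X H t - phi c X H' t| ≤ X t - phi (fun _ => 1) X H t := by
  have h0 : ∀ n, 0 ≤ X n := fun n => by rcases hX n with h | h <;> rw [h]; norm_num
  have h1 : ∀ n, 0 ≤ 1 - X n := fun n => by rcases hX n with h | h <;> rw [h] <;> norm_num
  rw [phi_one]
  unfold phi
  rw [← mul_sub, abs_mul, abs_of_nonneg (h0 t)]
  apply mul_le_mul_of_nonneg_left _ (h0 t)
  have hsub : Icc 1 H ⊆ Icc 1 H' := Icc_subset_Icc le_rfl hH
  have e1 : ∀ F : ℕ → ℝ, ∑ g ∈ Icc 1 H, F g - ∑ g ∈ Icc 1 H', F g = -∑ g ∈ Icc 1 H' \ Icc 1 H, F g := by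
    intro F
    rw [← Finset.sum_sdiff hsub]
    ring
  rw [e1, abs_neg]
  have h2 : |∑ g ∈ Icc 1 H' \ Icc 1 H, c g * X (t + g) * ∏ i ∈ Ioo 0 g, (1 - X (t + i))|
      ≤ ∑ g ∈ Icc 1 H' \ Icc 1 H, X (t + g) * ∏ i ∈ Ioo 0 g, (1 - X (t + i)) := by
    refine (Finset.abs_sum_le_sum_abs _ _).trans ?_
    apply Finset.sum_le_sum
    intro g _
    have h4 : 0 ≤ ∏ i ∈ Ioo 0 g, (1 - X (t + i)) := Finset.prod_nonneg (fun i _ => h1 _)
    rw [abs_mul, abs_mul, abs_of_nonneg h4, abs_of_nonneg (h0 _)]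
    apply mul_le_mul_of_nonneg_right _ h4
    calc |c g| * X (t + g) ≤ 1 * X (t + g) := mul_le_mul_of_nonneg_right (hc g) (h0 _)
      _ = X (t + g) := one_mul _
  refine h2.trans ?_
  have e2 := sum_window X H t
  have e3 := sum_window X H' t
  have e4 : ∑ g ∈ Icc 1 H' \ Icc 1 H, X (t + g) * ∏ i ∈ Ioo 0 g, (1 - X (t + i))
      = ∏ i ∈ Icc 1 H, (1 - X (t + i)) - ∏ i ∈ Icc 1 H', (1 - X (t + i)) := by
    have := e1 (fun g => X (t + g) * ∏ i ∈ Ioo 0 g, (1 - X (t + i)))
    rw [e2, e3] at this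
    linarith
  rw [e4]
  have h5 : 0 ≤ ∏ i ∈ Icc 1 H', (1 - X (t + i)) := Finset.prod_nonneg (fun i _ => h1 _)
  linarith

theorem Gz_sub_PAH' (z H : ℕ) :
    Gz z - PAH z H (fun _ => 1)
      = (∑ t ∈ range (∏ p ∈ Ps z, p), (Xz z t - phi (fun _ => 1) (Xz z) H t)) /
        ((∏ p ∈ Ps z, p : ℕ) : ℝ) := by
  have h1 := (sieveSys z).avg_one 0
  simp only [add_zero] at h1
  rw [Finset.sum_sub_distrib, sub_div]
  unfold PAH Gz
  rw [← h1]
  rfl

theorem PAH_window {c : ℕ → ℝ} (hc : ∀ g, |c g| ≤ 1) (z : ℕ) {H H' : ℕ} (hH : H ≤ H') :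
    |PAH z H c - PAH z H' c| ≤ Gz z - PAH z H (fun _ => 1) := by
  have hQ := (sieveSys z).Q_pos
  rw [Gz_sub_PAH']
  unfold PAH
  rw [← sub_div, abs_div, abs_of_pos hQ, ← Finset.sum_sub_distrib]
  apply div_le_div_of_nonneg_right _ hQ.le
  refine (Finset.abs_sum_le_sum_abs _ _).trans ?_
  apply Finset.sum_le_sum
  intro t _
  exact phi_window hc (fun n => (sieveSys z).XX_zero_one n) hH t

/-! ### Trivial bound -/

open Classical in
theorem delta_mem (z x a b : ℕ) : 0 ≤ delta (RT z) x a b ∧ delta (RT z) x a b ≤ 1 := by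
  unfold delta
  have hfin : {i : ℕ | Nat.nth (RT z) i ≤ x ∧ Nat.nth (RT z) i % 4 = a}.Finite := by
    apply (Set.finite_lt_nat (Nat.count (RT z) (x + 1))).subset
    intro i hi
    exact (Helper88.BFT.nth_le_iff (rt_infinite z) x i).1 hi.1
  have hle : count₂ (RT z) x a b ≤ count₁ (RT z) x a := by
    unfold count₂ count₁
    apply Set.ncard_le_ncard _ hfin
    rintro i ⟨h1, h2, _⟩
    exact ⟨h1, h2⟩
  have hle' : (count₂ (RT z) x a b : ℝ) ≤ count₁ (RT z) x a := by exact_mod_cast hle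
  constructor
  · positivity
  · exact div_le_one_of_le₀ hle' (Nat.cast_nonneg _)

theorem b2_bound {N G P1 Psg PAsg B0 B2 S1 Ssg E : ℝ} (hN : 0 ≤ N)
    (h1 : |B2 - Ssg| ≤ B0 - S1 + 1) (h2 : |B0 - N * G| ≤ E) (h3 : |S1 - N * P1| ≤ E)
    (h4 : |Ssg - N * Psg| ≤ E) (h5 : |Psg - PAsg| ≤ G - P1) :
    |B2 - N * PAsg| ≤ 2 * (N * (G - P1)) + 3 * E + 1 := by
  have e1 : B2 - N * PAsg = (B2 - Ssg) + (Ssg - N * Psg) + N * (Psg - PAsg) := by ring
  rw [e1]
  have h6 : |N * (Psg - PAsg)| ≤ N * (G - P1) := by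
    rw [abs_mul, abs_of_nonneg hN]
    exact mul_le_mul_of_nonneg_left h5 hN
  have h7 : B0 - S1 ≤ N * (G - P1) + 2 * E := by
    have := (abs_le.1 h2).2
    have := (abs_le.1 h3).1
    linarith
  calc |(B2 - Ssg) + (Ssg - N * Psg) + N * (Psg - PAsg)|
      ≤ |B2 - Ssg| + |Ssg - N * Psg| + |N * (Psg - PAsg)| :=
        (abs_add_le _ _).trans (add_le_add (abs_add_le _ _) le_rfl)
    _ ≤ _ := by linarith

theorem rt_delta {z : ℕ} (hz3 : 3 ≤ z) (x : ℕ) (e W : ℝ) (he0 : 0 < e) (he1 : e ≤ 1 / 100)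
    (hW3 : 3 ≤ e * W)
    (b0 : |B0 (XA z (fun _ => 5)) (Helper18.BFT.cnt 5 (x + 1)) - W| ≤ e * W)
    (b1 : |B1 (XA z (fun _ => 5)) (Helper18.BFT.cnt 5 (x + 1))| ≤ e * W)
    (b2 : |B2 (XA z (fun _ => 5)) (Helper18.BFT.cnt 5 (x + 1)) - DD z * W| ≤ e * W)
    (a b : ℕ) (ha : a = 1 ∨ a = 3) (hb : b = 1 ∨ b = 3) :
    |delta (RT z) x a b - 1 / 2 - (if a = b then 1 else -1) * (DD z / 2)| ≤ 4 * e := by
  set N : ℕ := Helper18.BFT.cnt 5 (x + 1) with hN
  have hs0 : ∑ n ∈ range (x + 1), ind (RT z) n = B0 (XA z (fun _ => 5)) N := by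
    rw [Helper18.BFT.sum_prog (by norm_num : 5 < 6) (ind (RT z)) (fun i hi => ind_rt_zero hz3 i hi)]
    unfold B0
    exact Finset.sum_congr rfl (fun t _ => ind_rt hz3 t)
  have hs1 : ∑ n ∈ range (x + 1), ind (RT z) n * chi n = B1 (XA z (fun _ => 5)) N := by
    rw [Helper18.BFT.sum_prog (by norm_num : 5 < 6) (fun n => ind (RT z) n * chi n)
      (fun i hi => by simp only [ind_rt_zero hz3 i hi, zero_mul])]
    unfold B1
    refine Finset.sum_congr rfl (fun t _ => ?_)
    rw [ind_rt hz3 t, chi_five]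
    ring
  have hs2 : (run chi (ind (RT z)) (x + 1)).1 = B2 (XA z (fun _ => 5)) N := by
    rw [Helper18.BFT.run_prog (by norm_num : 5 < 6) chi (ind (RT z))
      (fun i hi => ind_rt_zero hz3 i hi)]
    rw [Helper18.BFT.run_congr _ (fun t => (-1 : ℝ) ^ t) _ (XA z (fun _ => 5))
      (fun t => chi_five t) (fun t => ind_rt hz3 t)]
    rfl
  exact delta2 (RT z) (rt_infinite z)
    (fun n hn => by have := ((rt_iff hz3 n).1 hn).1; omega) x e W (DD z) he0 he1
    (abs_DD_le z) hW3 (by rw [hs0]; exact b0) (by rw [hs1]; exact b1)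
    (by rw [hs2]; exact b2) a b ha hb

/-- the last step -/
theorem fin_real {d D s κ v ε K1 C c3 c u ux l L : ℝ} (hsabs : |s| = 1) (hε : 0 < ε)
    (hL : 4 ≤ L) (hv : v = (l / L) ^ 2) (hl : 1 ≤ l) (hK1 : 0 < K1) (hC : 4 * K1 ≤ C)
    (hcc : c * ux ≤ c3 * u) (hlarge : 8 * K1 / ε ≤ L)
    (hD : |(L / l) ^ 2 * D - -κ| ≤ ε / 2)
    (hd : |d - 1 / 2 - s * (D / 2)| ≤ 4 * (K1 * (Real.exp (-(c3 * u)) + 1 / L ^ 6))) :
    |d - 1 / 2 - -s * (κ / 2) * v| ≤ ε * v + C * Real.exp (-(c * ux)) := by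
  have hL0 : 0 < L := by linarith
  have hl0 : 0 < l := by linarith
  have hv0 : 0 ≤ v := by
    rw [hv]
    positivity
  have hvlow : 1 / L ^ 2 ≤ v := by
    rw [hv, div_pow]
    apply div_le_div_of_nonneg_right _ (by positivity)
    nlinarith
  have hdv : |D + κ * v| ≤ ε / 2 * v := by
    have e1 : D + κ * v = v * ((L / l) ^ 2 * D - -κ) := by
      have e2 : v * (L / l) ^ 2 = 1 := by
        rw [hv, ← mul_pow]
        have : l / L * (L / l) = 1 := by
          field_simp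
        rw [this, one_pow]
      calc D + κ * v = 1 * D + κ * v := by ring
        _ = v * (L / l) ^ 2 * D + κ * v := by rw [e2]
        _ = v * ((L / l) ^ 2 * D - -κ) := by ring
    rw [e1, abs_mul, abs_of_nonneg hv0, mul_comm]
    exact mul_le_mul_of_nonneg_right hD hv0
  have hE : 0 < Real.exp (-(c * ux)) := Real.exp_pos _
  have h4e : 4 * (K1 * (Real.exp (-(c3 * u)) + 1 / L ^ 6)) ≤ C * Real.exp (-(c * ux)) + ε / 2 * v := by
    have h2 : 4 * K1 * Real.exp (-(c3 * u)) ≤ C * Real.exp (-(c * ux)) := by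
      apply mul_le_mul hC _ (Real.exp_pos _).le (by linarith)
      apply Real.exp_le_exp.2
      linarith
    have h3 : 4 * K1 * (1 / L ^ 6) ≤ ε / 2 * v := by
      have h6 : 8 * K1 ≤ ε * L := by
        rw [div_le_iff₀ hε] at hlarge
        linarith
      have h7 : L ≤ L ^ 4 := by
        calc L = L ^ 1 := (pow_one _).symm
          _ ≤ L ^ 4 := pow_le_pow_right₀ (by linarith) (by norm_num)
      have h8 : 8 * K1 ≤ ε * L ^ 4 := h6.trans (mul_le_mul_of_nonneg_left h7 hε.le)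
      have h9 : 4 * K1 * (1 / L ^ 6) ≤ ε / 2 * (1 / L ^ 2) := by
        rw [mul_one_div, mul_one_div, div_le_div_iff₀ (by positivity) (by positivity)]
        calc 4 * K1 * L ^ 2 ≤ (ε * L ^ 4 / 2) * L ^ 2 := by
              apply mul_le_mul_of_nonneg_right _ (by positivity)
              linarith
          _ = ε / 2 * L ^ 6 := by ring
      exact h9.trans (mul_le_mul_of_nonneg_left hvlow (by positivity))
    calc 4 * (K1 * (Real.exp (-(c3 * u)) + 1 / L ^ 6))
        = 4 * K1 * Real.exp (-(c3 * u)) + 4 * K1 * (1 / L ^ 6) := by ring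
      _ ≤ _ := add_le_add h2 h3
  have e6 : d - 1 / 2 - -s * (κ / 2) * v
      = (d - 1 / 2 - s * (D / 2)) + s / 2 * (D + κ * v) := by ring
  rw [e6]
  refine (abs_add_le _ _).trans ?_
  have e8 : |s / 2 * (D + κ * v)| ≤ ε / 4 * v := by
    rw [abs_mul, abs_div, hsabs, abs_of_pos (by norm_num : (0 : ℝ) < 2)]
    linarith
  have e9 : 0 ≤ ε * v := by positivity
  linarith

/-- the main range, for one `z` -/
theorem main_range {c1 c2 C1 C2 cG : ℝ} (hc1 : 0 < c1) (hc2 : 0 < c2) (hC1 : 0 < C1) (hC2 : 0 < C2)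
    (hcG : 0 < cG) {z : ℕ} (hz12 : 12 ≤ z)
    (hUz : ∀ r N H : ℕ,
      Real.log z ≤ r → r ≤ z → Real.log z ≤ 2 * Real.log N → 1 ≤ H * Gz z →
      H * Gz z ≤ c1 * (Real.log N / Real.log r) → H * Gz z ≤ 101 * l2 z → ∀ A : ℕ → ℕ,
        (∀ c : ℕ → ℝ, (∀ g, |c g| ≤ 1) →
          |Av (lg r z) (fun B => ∑ t ∈ range N, phi c (XA z B) H t) A - N * PAH z H c|
            ≤ N * Gz z * EU c2 C1 z r N) ∧
        |Av (lg r z) (fun B => B0 (XA z B) N) A - N * Gz z| ≤ N * Gz z * EU c2 C1 z r N ∧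
        |Av (lg r z) (fun B => B1 (XA z B) N) A| ≤ N * Gz z * EU c2 C1 z r N)
    (hLz : ∀ H : ℕ, 1 ≤ H * Gz z → H * Gz z ≤ 101 * l2 z →
      Gz z - PAH z H (fun _ => 1)
        ≤ Gz z * (C2 * (Real.exp (-(H * Gz z / 5)) + 1 / Real.log z ^ 6)))
    (hGz : cG ≤ Gz z * Real.log z ^ 2) (hHH16 : 100 * l2 z ≤ HH z * Gz z) (hl1 : 1 ≤ l2 z)
    (hS : SEQ2G) (hl9 : Real.log z ^ 9 ≤ z)
    (hlog4 : 4 ≤ Real.log z) (hlog200 : 200 * (8 * C2 + 3 * C1 + 4) ≤ Real.log z)
    (hlogG : 1 / cG ≤ Real.log z) {K0 : ℝ} (hK0a : 4 ≤ K0) (hK0b : 8 / c1 ≤ K0)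
    (hK0c : Real.exp (-(min c2 (c1 / 10) * (K0 / 2))) ≤ 1 / (200 * (8 * C2 + 3 * C1 + 4)))
    (x : ℕ) (hlarge : K0 ≤ Real.log x / Real.log z)
    (a b : ℕ) (ha : a = 1 ∨ a = 3) (hb : b = 1 ∨ b = 3) :
    ∃ u : ℝ, Real.log x / Real.log z / 2 ≤ u ∧
    |delta (RT z) x a b - 1 / 2 - (if a = b then 1 else -1) * (DD z / 2)|
      ≤ 4 * ((8 * C2 + 3 * C1 + 4) * (Real.exp (-(min c2 (c1 / 10) * u)) + 1 / Real.log z ^ 6)) := by
  set K1 : ℝ := 8 * C2 + 3 * C1 + 4 with hK1
  have hK1pos : 0 < K1 := by positivity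
  have hK14 : 4 ≤ K1 := by
    rw [hK1]
    linarith only [hC1, hC2]
  set c3 : ℝ := min c2 (c1 / 10) with hc3
  have hc3pos : 0 < c3 := lt_min hc2 (by positivity)
  have hz3 : 3 ≤ z := by omega
  have hp0 : 0 < 200 * K1 := by positivity
  have hlog0 : 0 < Real.log z := by linarith only [hlog4]
  have hGpos := Helper90.Twin.Gz_pos z
  have hG1 := Helper90.Twin.Gz_le_one z
  set ux : ℝ := Real.log x / Real.log z with hux
  set N : ℕ := Helper18.BFT.cnt 5 (x + 1) with hN
  have hN' : N = (x + 1) / 6 := by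
    rw [hN]
    unfold Helper18.BFT.cnt
    omega
  have hlog12 : Real.log (12 : ℝ) ≤ Real.log z :=
    Real.log_le_log (by norm_num) (by exact_mod_cast hz12)
  have hxK : K0 * Real.log z ≤ Real.log x := by
    rwa [hux, le_div_iff₀ hlog0] at hlarge
  have hx4 : 4 * Real.log z ≤ Real.log x :=
    (mul_le_mul_of_nonneg_right hK0a hlog0.le).trans hxK
  have hx12 : 12 ≤ x := by
    by_contra hcon
    push Not at hcon
    have h1 : (x : ℝ) ≤ 12 := by exact_mod_cast hcon.le
    have h2 : Real.log x ≤ Real.log 12 := by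
      rcases Nat.eq_zero_or_pos x with h0 | h0
      · rw [h0]
        simp
        positivity
      · exact Real.log_le_log (by exact_mod_cast h0) h1
    linarith only [h2, hx4, hlog12, hlog0]
  have hNx : (x : ℝ) / 12 ≤ N := by
    have h1 : x ≤ 12 * N := by omega
    have h2 : (x : ℝ) ≤ 12 * N := by exact_mod_cast h1
    linarith only [h2]
  have hx0' : (0 : ℝ) < x := by exact_mod_cast (by omega : 0 < x)
  have hNpos : (0 : ℝ) < N := lt_of_lt_of_le (by positivity) hNx
  have hlogN : Real.log x - Real.log 12 ≤ Real.log N := by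
    rw [← Real.log_div hx0'.ne' (by norm_num)]
    exact Real.log_le_log (by positivity) hNx
  set u : ℝ := Real.log N / Real.log z with hu
  have huux : ux / 2 ≤ u := by
    rw [hu, hux, div_div, div_le_div_iff₀ (by positivity) hlog0]
    have h1 : Real.log x ≤ 2 * Real.log N := by linarith only [hlogN, hlog12, hx4, hlog0]
    calc Real.log x * Real.log z ≤ (2 * Real.log N) * Real.log z :=
          mul_le_mul_of_nonneg_right h1 hlog0.le
      _ = Real.log N * (Real.log z * 2) := by ring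
  refine ⟨u, huux, ?_⟩
  have hu2 : K0 / 2 ≤ u := by linarith only [huux, hlarge]
  have hu0 : 0 ≤ u := by linarith only [hu2, hK0a]
  have hc1u : 4 ≤ c1 * u := by
    have h1 : 8 ≤ c1 * K0 := by
      rw [div_le_iff₀ hc1] at hK0b
      linarith only [hK0b]
    have h2 : c1 * (K0 / 2) ≤ c1 * u := mul_le_mul_of_nonneg_left hu2 hc1.le
    linarith only [h1, h2]
  -- the window
  set y : ℝ := min (c1 * u) (100 * l2 z) with hy
  have hy4 : 4 ≤ y := le_min hc1u (by linarith only [hl1])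
  set H : ℕ := ⌊y / Gz z⌋₊ with hH
  have hHle : (H : ℝ) * Gz z ≤ y := by
    have h1 : (H : ℝ) ≤ y / Gz z := Nat.floor_le (by positivity)
    rwa [le_div_iff₀ hGpos] at h1
  have hHge : y / 2 ≤ (H : ℝ) * Gz z := by
    have h1 : y / Gz z < (H : ℝ) + 1 := Nat.lt_floor_add_one _
    rw [div_lt_iff₀ hGpos] at h1
    have h2 : ((H : ℝ) + 1) * Gz z = H * Gz z + Gz z := by ring
    linarith only [h1, h2, hG1, hy4]
  have hH1 : 1 ≤ (H : ℝ) * Gz z := by linarith only [hHge, hy4]
  have hHc : (H : ℝ) * Gz z ≤ c1 * (Real.log N / Real.log z) := hHle.trans (min_le_left _ _)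
  have hH100 : (H : ℝ) * Gz z ≤ 100 * l2 z := hHle.trans (min_le_right _ _)
  have hH101 : (H : ℝ) * Gz z ≤ 101 * l2 z := by linarith only [hH100, hl1]
  have hHHH : H ≤ HH z := by
    have h2 : (H : ℝ) * Gz z ≤ HH z * Gz z := hH100.trans hHH16
    have h3 : (H : ℝ) ≤ HH z := le_of_mul_le_mul_right h2 hGpos
    exact_mod_cast h3
  have hHpos : 1 ≤ H := by
    by_contra hcon
    have : H = 0 := by omega
    rw [this] at hH1
    norm_num at hH1
  -- size of N
  have hNlog : 3 * Real.log z ≤ Real.log N := by linarith only [hlogN, hlog12, hx4, hlog0]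
  have hNz3 : (z : ℝ) ^ 3 ≤ N := by
    have hz0 : (0 : ℝ) < z := by exact_mod_cast (by omega : 0 < z)
    rw [← Real.log_le_log_iff (by positivity) hNpos, Real.log_pow]
    push_cast
    exact hNlog
  obtain ⟨up, u0, u1⟩ := hUz z N H ((Real.log_le_self (Nat.cast_nonneg _))) le_rfl
    (by linarith only [hNlog, hlog0]) hH1 hHc hH101 (fun _ => 5)
  have upsg := up sg sg_abs
  have upone := up (fun _ => 1) (fun _ => by simp)
  rw [lg_self, Helper60.BFT.Av_nil] at u0 u1 upsg upone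
  have hLw := hLz H hH1 hH101
  set q : ℝ := Real.exp (-(c3 * u)) + 1 / Real.log z ^ 6 with hq
  have hq0 : 0 < q := by positivity
  have hexp0 : 0 < Real.exp (-(c3 * u)) := Real.exp_pos _
  have hqlog : 1 / Real.log z ^ 6 ≤ q := by
    rw [hq]
    linarith only [hexp0]
  set E0 : ℝ := EU c2 C1 z z N with hE0
  have hE0le : E0 ≤ C1 * q := by
    rw [hE0]
    unfold EU
    apply mul_le_mul_of_nonneg_left _ hC1.le
    have : Real.exp (-(c2 * (Real.log N / Real.log z))) ≤ Real.exp (-(c3 * u)) := by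
      apply Real.exp_le_exp.2
      have h1 : c3 ≤ c2 := min_le_left _ _
      rw [← hu]
      have h2 : c3 * u ≤ c2 * u := mul_le_mul_of_nonneg_right h1 hu0
      linarith only [h2]
    rw [hq]
    linarith only [this]
  have hLwle : Real.exp (-(H * Gz z / 5)) ≤ q := by
    rcases le_total (c1 * u) (100 * l2 z) with h | h
    · have h1 : y = c1 * u := min_eq_left h
      have h2 : Real.exp (-(H * Gz z / 5)) ≤ Real.exp (-(c3 * u)) := by
        apply Real.exp_le_exp.2
        have h3 : c3 ≤ c1 / 10 := min_le_right _ _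
        have h4 : c3 * u ≤ c1 / 10 * u := mul_le_mul_of_nonneg_right h3 hu0
        rw [h1] at hHge
        linarith only [h4, hHge]
      have h5 : 0 ≤ 1 / Real.log z ^ 6 := by positivity
      rw [hq]
      linarith only [h2, h5]
    · have h1 : y = 100 * l2 z := min_eq_right h
      have h2 : Real.exp (-(H * Gz z / 5)) ≤ 1 / Real.log z ^ 6 := by
        have h3 : Real.exp (-(H * Gz z / 5)) ≤ Real.exp (-(6 * l2 z)) := by
          apply Real.exp_le_exp.2
          rw [h1] at hHge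
          linarith only [hHge, hl1]
        refine h3.trans (le_of_eq ?_)
        rw [Real.exp_neg, one_div]
        congr 1
        have : Real.exp (6 * l2 z) = Real.exp (l2 z) ^ 6 := by
          rw [← Real.exp_nat_mul]
          norm_num
        rw [this]
        unfold l2
        rw [Real.exp_log hlog0]
      exact h2.trans hqlog
  set P1 : ℝ := PAH z H (fun _ => 1) with hP1
  have hG1le : Gz z - P1 ≤ Gz z * (2 * C2 * q) := by
    refine hLw.trans ?_
    apply mul_le_mul_of_nonneg_left _ hGpos.le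
    have h6 : Real.exp (-(H * Gz z / 5)) + 1 / Real.log z ^ 6 ≤ 2 * q := by
      linarith only [hLwle, hqlog]
    calc C2 * (Real.exp (-(H * Gz z / 5)) + 1 / Real.log z ^ 6)
        ≤ C2 * (2 * q) := mul_le_mul_of_nonneg_left h6 hC2.le
      _ = _ := by ring
  -- the error
  set e : ℝ := K1 * q with he
  have he0 : 0 < e := by positivity
  have he1 : e ≤ 1 / 100 := by
    have h1 : Real.exp (-(c3 * u)) ≤ 1 / (200 * K1) := by
      refine le_trans ?_ hK0c
      apply Real.exp_le_exp.2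
      have h2 : c3 * (K0 / 2) ≤ c3 * u := mul_le_mul_of_nonneg_left hu2 hc3pos.le
      linarith only [h2]
    have h2 : 1 / Real.log z ^ 6 ≤ 1 / (200 * K1) := by
      apply div_le_div_of_nonneg_left zero_le_one hp0
      refine hlog200.trans ?_
      calc Real.log z = Real.log z ^ 1 := (pow_one _).symm
        _ ≤ Real.log z ^ 6 := pow_le_pow_right₀ (by linarith only [hlog4]) (by norm_num)
    calc e ≤ K1 * (1 / (200 * K1) + 1 / (200 * K1)) := by
          rw [he, hq]
          exact mul_le_mul_of_nonneg_left (add_le_add h1 h2) hK1pos.le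
      _ = 1 / 100 := by
          field_simp
          norm_num
  have hNG : 1 ≤ N * Gz z * (1 / Real.log z ^ 6) := by
    rw [mul_one_div, le_div_iff₀ (by positivity), one_mul]
    have hz0 : (12 : ℝ) ≤ z := by exact_mod_cast hz12
    have h3 : 1 ≤ cG * Real.log z := by
      rw [div_le_iff₀ hcG] at hlogG
      linarith only [hlogG]
    have h4 : 1 ≤ Gz z * Real.log z ^ 3 := by
      calc (1 : ℝ) ≤ cG * Real.log z := h3
        _ ≤ Gz z * Real.log z ^ 2 * Real.log z := mul_le_mul_of_nonneg_right hGz hlog0.le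
        _ = Gz z * Real.log z ^ 3 := by ring
    have h5 : (z : ℝ) ≤ (z : ℝ) ^ 3 := by
      calc (z : ℝ) = (z : ℝ) ^ 1 := (pow_one _).symm
        _ ≤ (z : ℝ) ^ 3 := pow_le_pow_right₀ (by linarith only [hz0]) (by norm_num)
    have h6 : Real.log z ^ 9 ≤ N := hl9.trans (h5.trans hNz3)
    have h7 : Real.log z ^ 6 * Real.log z ^ 3 ≤ N * Gz z * Real.log z ^ 3 := by
      calc Real.log z ^ 6 * Real.log z ^ 3 = Real.log z ^ 9 * 1 := by ring
        _ ≤ N * (Gz z * Real.log z ^ 3) := mul_le_mul h6 h4 zero_le_one hNpos.le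
        _ = N * Gz z * Real.log z ^ 3 := by ring
    exact le_of_mul_le_mul_right h7 (by positivity)
  set W : ℝ := N * Gz z with hW
  have hW0 : 0 < W := by positivity
  have hqW : 1 ≤ W * q := hNG.trans (mul_le_mul_of_nonneg_left hqlog hW0.le)
  have hW3 : 3 ≤ e * W := by
    have h1 : e * W = K1 * (W * q) := by
      rw [he]
      ring
    rw [h1]
    have h2 : 4 * (W * q) ≤ K1 * (W * q) := mul_le_mul_of_nonneg_right hK14 (by positivity)
    linarith only [h2, hqW]
  have hWE : W * E0 ≤ C1 * (W * q) := by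
    calc W * E0 ≤ W * (C1 * q) := mul_le_mul_of_nonneg_left hE0le hW0.le
      _ = C1 * (W * q) := by ring
  have hNG1 : N * (Gz z - P1) ≤ 2 * (C2 * (W * q)) := by
    calc N * (Gz z - P1) ≤ N * (Gz z * (2 * C2 * q)) := mul_le_mul_of_nonneg_left hG1le hNpos.le
      _ = 2 * (C2 * (W * q)) := by
          rw [hW]
          ring
  have heW : e * W = 8 * (C2 * (W * q)) + 3 * (C1 * (W * q)) + 4 * (W * q) := by
    rw [he, hK1]
    ring
  have hCWq : 0 ≤ C1 * (W * q) := by positivity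
  have hC2Wq : 0 ≤ C2 * (W * q) := by positivity
  have b0 : |B0 (XA z (fun _ => 5)) N - W| ≤ e * W := by
    refine u0.trans ?_
    rw [heW]
    linarith only [hWE, hCWq, hC2Wq, hqW]
  have b1 : |B1 (XA z (fun _ => 5)) N| ≤ e * W := by
    refine u1.trans ?_
    rw [heW]
    linarith only [hWE, hCWq, hC2Wq, hqW]
  have hX01 : ∀ n, XA z (fun _ => 5) n = 0 ∨ XA z (fun _ => 5) n = 1 := by
    intro n
    rw [XA_five]
    exact (Helper90.Twin.sieveSys z).XX_zero_one n
  have hseq := hS (XA z (fun _ => 5)) hX01 H N hHpos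
  rw [Finset.sum_sub_distrib] at hseq
  have hwin : |PAH z H sg - PA z sg| ≤ Gz z - P1 := PAH_window sg_abs z hHHH
  have hDW : DD z * W = N * PA z sg := by
    rw [hW, ← DD_mul]
    ring
  have b2 : |B2 (XA z (fun _ => 5)) N - DD z * W| ≤ e * W := by
    rw [hDW, heW]
    have h0 := b2_bound hNpos.le hseq u0 upone upsg hwin
    refine h0.trans ?_
    linarith only [hWE, hCWq, hC2Wq, hqW, hNG1]
  exact rt_delta hz3 x e W he0 he1 hW3 b0 b1 b2 a b ha hb

/-- the statement T2U -/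
def T2UG : Prop :=
  ∃ c C : ℝ, 0 < c ∧ 0 < C ∧ ∀ ε : ℝ, 0 < ε → ∃ z₀ : ℕ, ∀ z x : ℕ, z₀ ≤ z →
    ∀ a b : ℕ, (a = 1 ∨ a = 3) → (b = 1 ∨ b = 3) →
      |delta (RT z) x a b - 1 / 2 - (if a = b then -1 else 1) *
          (Real.exp (-2 * Real.eulerMascheroniConstant) / 2) * (Real.log (Real.log z) / Real.log z) ^ 2|
        ≤ ε * (Real.log (Real.log z) / Real.log z) ^ 2
          + C * Real.exp (-(c * (Real.log x / Real.log z)))

theorem t2u (hU : UNI2G) (hL : LGWG) (hC : COREG) (hG : GZLG) (hHB : HBG) (hS : SEQ2G) : T2UG := by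
  obtain ⟨c1, c2, C1, hc1, hc2, hC1, hU⟩ := hU
  obtain ⟨C2, hC2, hL⟩ := hL
  obtain ⟨cG, CG, hcG, hGev⟩ := hG
  set K1 : ℝ := 8 * C2 + 3 * C1 + 4 with hK1
  have hK1pos : 0 < K1 := by positivity
  set c3 : ℝ := min c2 (c1 / 10) with hc3
  have hc3pos : 0 < c3 := lt_min hc2 (by positivity)
  -- threshold for u
  obtain ⟨K0, hK0a, hK0b, hK0c⟩ : ∃ K0 : ℝ, 4 ≤ K0 ∧ 8 / c1 ≤ K0 ∧
      Real.exp (-(c3 * (K0 / 2))) ≤ 1 / (200 * K1) := by
    have ht : Tendsto (fun K : ℝ => Real.exp (-(c3 * (K / 2)))) atTop (𝓝 0) := by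
      apply Real.tendsto_exp_neg_atTop_nhds_zero.comp
      exact (tendsto_id.atTop_div_const (by norm_num : (0 : ℝ) < 2)).const_mul_atTop hc3pos
    have hev := ht.eventually (ge_mem_nhds (show (0 : ℝ) < 1 / (200 * K1) by positivity))
    obtain ⟨K0, h1, h2, h3⟩ := (hev.and ((eventually_ge_atTop (4 : ℝ)).and
      (eventually_ge_atTop (8 / c1)))).exists
    exact ⟨K0, h2, h3, h1⟩
  set c : ℝ := c3 / 2 with hcdef
  have hcpos : 0 < c := by positivity
  set C : ℝ := 4 * K1 + 2 * Real.exp (c * K0) with hCdef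
  have hCpos : 0 < C := by positivity
  refine ⟨c, C, hcpos, hCpos, ?_⟩
  intro ε hε
  have hCε := (Metric.tendsto_nhds.1 hC) (ε / 2) (by positivity)
  have hloglog : ∀ᶠ z : ℕ in atTop, l2 z ≤ Real.log z := by
    have h1 : ∀ᶠ x : ℝ in atTop, ‖Real.log x‖ ≤ 1 * ‖id x‖ :=
      (Asymptotics.isLittleO_iff.1 Real.isLittleO_log_id_atTop) (by norm_num)
    filter_upwards [tlog.eventually h1, tlog.eventually_ge_atTop 1] with z h2 h3
    rw [Real.norm_eq_abs, Real.norm_eq_abs, one_mul] at h2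
    simp only [id] at h2
    rw [abs_of_pos (by linarith : (0 : ℝ) < Real.log z)] at h2
    exact (le_abs_self _).trans h2
  have hlog9 : ∀ᶠ z : ℕ in atTop, Real.log z ^ 9 ≤ z := by
    have h1 : ∀ᶠ x : ℝ in atTop, ‖Real.log x ^ 9‖ ≤ 1 * ‖id x‖ :=
      (Asymptotics.isLittleO_iff.1 Real.isLittleO_pow_log_id_atTop) (by norm_num)
    filter_upwards [tendsto_natCast_atTop_atTop.eventually h1] with z h2
    rw [Real.norm_eq_abs, Real.norm_eq_abs, one_mul] at h2
    simp only [id] at h2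
    rw [abs_of_nonneg (show (0 : ℝ) ≤ (z : ℝ) from Nat.cast_nonneg z)] at h2
    exact (le_abs_self _).trans h2
  have hall : ∀ᶠ z : ℕ in atTop, ∀ x : ℕ, ∀ a b : ℕ, (a = 1 ∨ a = 3) → (b = 1 ∨ b = 3) →
      |delta (RT z) x a b - 1 / 2 - (if a = b then -1 else 1) *
          (Real.exp (-2 * Real.eulerMascheroniConstant) / 2) * (Real.log (Real.log z) / Real.log z) ^ 2|
        ≤ ε * (Real.log (Real.log z) / Real.log z) ^ 2
          + C * Real.exp (-(c * (Real.log x / Real.log z))) := by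
    filter_upwards [hU, hL, hGev, hCε, hHB 1, hloglog, hlog9,
      tlog.eventually_ge_atTop (4 + 200 * K1 + 8 * K1 / ε + 1 / cG), eventually_ge_atTop 12]
      with z hUz hLz hGz hCz hHBz hll hl9 hlog hz12
    obtain ⟨hl1, hHH1, hHH2, hHH3, hHH4, hHH5⟩ := hHBz
    intro x a b ha hb
    have hp0 : 0 < 200 * K1 := by positivity
    have hp1 : 0 < 8 * K1 / ε := by positivity
    have hp2 : 0 < 1 / cG := by positivity
    have hlog4 : 4 ≤ Real.log z := by linarith only [hlog, hp0, hp1, hp2]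
    have hlog0 : 0 < Real.log z := by linarith only [hlog4]
    have hlog200 : 200 * K1 ≤ Real.log z := by linarith only [hlog, hp0, hp1, hp2]
    have hlogG : 1 / cG ≤ Real.log z := by linarith only [hlog, hp0, hp1, hp2]
    have hlogK : 8 * K1 / ε ≤ Real.log z := by linarith only [hlog, hp0, hp1, hp2]
    have hl2' : Real.log (Real.log z) = l2 z := rfl
    rw [hl2']
    set v : ℝ := (l2 z / Real.log z) ^ 2 with hv
    set κ : ℝ := Real.exp (-2 * Real.eulerMascheroniConstant) with hκ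
    have hκpos : 0 < κ := Real.exp_pos _
    have hκ1 : κ ≤ 1 := by
      rw [hκ, Real.exp_le_one_iff]
      have := Real.one_half_lt_eulerMascheroniConstant
      linarith only [this]
    have hv0 : 0 ≤ v := sq_nonneg _
    have hv1 : v ≤ 1 := by
      rw [hv]
      apply pow_le_one₀ (div_nonneg (by linarith only [hl1]) hlog0.le)
      rw [div_le_one hlog0]
      exact hll
    set s : ℝ := if a = b then 1 else -1 with hs
    have hsabs : |s| = 1 := by
      rw [hs]
      split_ifs <;> simp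
    have hs' : (if a = b then (-1 : ℝ) else 1) = -s := by
      rw [hs]
      split_ifs <;> simp
    rw [hs']
    set ux : ℝ := Real.log x / Real.log z with hux
    rcases lt_or_ge ux K0 with hsmall | hlarge
    · -- trivial range
      obtain ⟨d0, d1⟩ := delta_mem z x a b
      have h1 : |delta (RT z) x a b - 1 / 2 - -s * (κ / 2) * v| ≤ 1 := by
        have e1 : delta (RT z) x a b - 1 / 2 - -s * (κ / 2) * v
            = (delta (RT z) x a b - 1 / 2) + s * (κ / 2 * v) := by ring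
        rw [e1]
        refine (abs_add_le _ _).trans ?_
        have h2 : |delta (RT z) x a b - 1 / 2| ≤ 1 / 2 := by
          rw [abs_le]
          constructor
          · linarith only [d0]
          · linarith only [d1]
        have h3 : |s * (κ / 2 * v)| ≤ 1 / 2 := by
          rw [abs_mul, hsabs, one_mul, abs_of_nonneg (by positivity)]
          have : κ * v ≤ 1 := mul_le_one₀ hκ1 hv0 hv1
          linarith only [this]
        linarith only [h2, h3]
      have h4 : 1 ≤ C * Real.exp (-(c * ux)) := by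
        have h5 : Real.exp (-(c * K0)) ≤ Real.exp (-(c * ux)) := by
          apply Real.exp_le_exp.2
          have := mul_le_mul_of_nonneg_left hsmall.le hcpos.le
          linarith only [this]
        have h6 : 2 * Real.exp (c * K0) ≤ C := by
          rw [hCdef]
          linarith only [hK1pos]
        have h7 : 2 * Real.exp (c * K0) * Real.exp (-(c * K0)) ≤ C * Real.exp (-(c * ux)) :=
          mul_le_mul h6 h5 (Real.exp_pos _).le hCpos.le
        have h8 : Real.exp (c * K0) * Real.exp (-(c * K0)) = 1 := by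
          rw [← Real.exp_add, add_neg_cancel, Real.exp_zero]
        rw [mul_assoc, h8] at h7
        linarith only [h7]
      have h9 : 0 ≤ ε * v := by positivity
      linarith only [h1, h4, h9]
    · -- main range
      have hGpos := Helper90.Twin.Gz_pos z
      have hHHlow : 100 * l2 z ≤ HH z * Gz z := by
        have h1 : 100 * l2 z / Gz z ≤ HH z := Nat.le_ceil _
        rwa [div_le_iff₀ hGpos] at h1
      obtain ⟨u, hu, hfin⟩ := main_range hc1 hc2 hC1 hC2 hcG hz12 hUz hLz hGz.1 hHHlow hl1 hS hl9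
        hlog4 hlog200 hlogG hK0a hK0b hK0c x hlarge a b ha hb
      rw [← hs] at hfin
      rw [Real.dist_eq] at hCz
      have hcc : c * ux ≤ c3 * u := by
        rw [hcdef]
        have := mul_le_mul_of_nonneg_left hu hc3pos.le
        linarith only [this]
      have h4K : 4 * K1 ≤ C := by
        rw [hCdef]
        have := Real.exp_pos (c * K0)
        linarith only [this]
      exact fin_real hsabs hε hlog4 hv hl1 hK1pos h4K hcc hlogK hCz.le hfin
  obtain ⟨z₀, hz₀⟩ := eventually_atTop.1 hall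
  exact ⟨z₀, fun z x hz a b ha hb => hz₀ z hz x a b ha hb⟩

end Pool.Agent.Helper76.TB
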