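import Pool.Agent.Helper76.TB.T3
import Pool.Agent.Helper76.TB.Goals2

/-!
# T3, final form: no lower bound for the threshold, optimal upper bound
-/

set_option autoImplicit false

open Finset Filter Topology MeasureTheory ProbabilityTheory

namespace Pool.Agent.Helper76.TB

open Pool.Agent.Helper60.BFT (root delta Pair Uni cls)

/-- with `Thr2` -/
def T3G2 : Prop :=
  ∀ (c : ℝ), 0 < c → ∀ (Z ρ : ℕ → ℕ), CutL c Z → Thr2 ρ → ∀ β : ℕ → ℕ → (ℕ → ℕ) → ℕ, AdaptedR ρ β →
    ∀ (Ω : Type) [MeasurableSpace Ω] (μ : Measure Ω) [IsProbabilityMeasure μ] (ω : ℕ → Ω → ℕ),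
      Uni μ ω → ∀ᵐ w ∂μ, ∀ b d : ℕ, (b = 1 ∨ b = 3) → (d = 1 ∨ d = 3) →
        Tendsto (fun x : ℕ => (Real.log x / Real.log (Real.log x)) ^ 2 *
          (delta (HPair Z ρ β (fun p => ω p w)) x b d - 1 / 2)) atTop
          (𝓝 ((if b = d then -1 else 1) *
            (Real.exp (-2 * Real.eulerMascheroniConstant) / (2 * c ^ 2))))

theorem t3g2 (hBLK : BLK3G) (hDVS : DVS3G) (hLOW : LOW2G) (hW : WAVG) (hA : PTHAG) (hB : PTHBG) :
    T3G2 := by
  intro c hc Z ρ hZ hρ β hβ Ω _ μ _ ω hω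
  have hAd := hy_adH hβ
  obtain ⟨C, hC⟩ := hBLK c hc Z ρ hZ hρ
  obtain ⟨c', hc', hlow⟩ := hLOW Z hZ.le
  filter_upwards [hDVS c hc Z ρ hZ hρ Ω μ ω hω (hy ρ β) hAd] with w hw
  intro b d hb hd
  have hP : PathH Z ρ (hy ρ β) (fun p => ω p w) C c' :=
    { pos := hc'
      blk := hC.mono (fun r hr => hr (hy ρ β) hAd _)
      dev := hw
      low := hlow }
  have h1 := hB Z (hy ρ β) (fun p => ω p w) _ (fun η hη => hA Z ρ (hy ρ β) _ C c' hP η hη)
    (hW c hc Z hZ) b d hb hd
  rw [hpair_eq hρ.le]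
  have e : (if b = d then (1 : ℝ) else -1) *
      (8 * (-Real.exp (-2 * Real.eulerMascheroniConstant) / (16 * c ^ 2)))
      = (if b = d then -1 else 1) *
        (Real.exp (-2 * Real.eulerMascheroniConstant) / (2 * c ^ 2)) := by
    have hc0 : c ≠ 0 := hc.ne'
    split_ifs <;> (field_simp; ring)
  rw [e] at h1
  exact h1

/-- thresholds, no lower bound -/
structure Thr3 (ρ : ℕ → ℕ) : Prop where
  le : ∀ s, ρ s ≤ s
  high : Tendsto (fun s : ℕ => Real.log (ρ s) * Real.log (Real.log s) / Real.log s) atTop (𝓝 0)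

/-- the statement T3 -/
def T3VG : Prop :=
  ∀ (c : ℝ), 0 < c → ∀ (Z ρ : ℕ → ℕ), CutL c Z → Thr3 ρ → ∀ β : ℕ → ℕ → (ℕ → ℕ) → ℕ, AdaptedR ρ β →
    ∀ (Ω : Type) [MeasurableSpace Ω] (μ : Measure Ω) [IsProbabilityMeasure μ] (ω : ℕ → Ω → ℕ),
      Uni μ ω → ∀ᵐ w ∂μ, ∀ b d : ℕ, (b = 1 ∨ b = 3) → (d = 1 ∨ d = 3) →
        Tendsto (fun x : ℕ => (Real.log x / Real.log (Real.log x)) ^ 2 *
          (delta (HPair Z ρ β (fun p => ω p w)) x b d - 1 / 2)) atTop
          (𝓝 ((if b = d then -1 else 1) *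
            (Real.exp (-2 * Real.eulerMascheroniConstant) / (2 * c ^ 2))))

/-- raise the threshold -/
noncomputable def up (ρ : ℕ → ℕ) (s : ℕ) : ℕ := max (ρ s) (rh s)

theorem thr2_up {ρ : ℕ → ℕ} (h : Thr3 ρ) : Thr2 (up ρ) where
  le := fun s => max_le (h.le s) (thr_rh.le s)
  low := by
    filter_upwards [thr_rh.low] with s hs
    refine hs.trans ?_
    unfold up
    exact_mod_cast le_max_right _ _
  high := by
    have hlog : Tendsto (fun s : ℕ => Real.log (s : ℝ)) atTop atTop :=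
      Real.tendsto_log_atTop.comp tendsto_natCast_atTop_atTop
    have h1 := h.high.add thr_rh.high
    rw [add_zero] at h1
    refine squeeze_zero' ?_ ?_ h1
    · filter_upwards [hlog.eventually_ge_atTop 1] with s hs
      apply div_nonneg _ (by linarith)
      exact mul_nonneg (Real.log_natCast_nonneg _) (Real.log_nonneg hs)
    · filter_upwards [hlog.eventually_ge_atTop (Real.exp 1)] with s hs
      have he : (2 : ℝ) ≤ Real.exp 1 := by
        have := Real.add_one_le_exp (1 : ℝ)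
        linarith
      have hs1 : (2 : ℝ) ≤ Real.log s := by linarith
      have hll : 1 ≤ Real.log (Real.log s) := by
        rw [← Real.log_exp 1]
        exact Real.log_le_log (Real.exp_pos 1) hs
      have hA0 : 0 ≤ Real.log (ρ s) := Real.log_natCast_nonneg _
      have hB0 : 0 ≤ Real.log (rh s) := Real.log_natCast_nonneg _
      have hU : Real.log (up ρ s) ≤ Real.log (ρ s) + Real.log (rh s) := by
        unfold up
        rcases le_total (ρ s) (rh s) with h2 | h2
        · rw [max_eq_right h2]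
          linarith
        · rw [max_eq_left h2]
          linarith
      rw [← add_div]
      apply div_le_div_of_nonneg_right _ (by linarith)
      have hsq : Real.log (Real.log s) ≤ Real.log (Real.log s) ^ 2 := by nlinarith
      calc Real.log (up ρ s) * Real.log (Real.log s)
          ≤ (Real.log (ρ s) + Real.log (rh s)) * Real.log (Real.log s) :=
            mul_le_mul_of_nonneg_right hU (by linarith)
        _ = Real.log (ρ s) * Real.log (Real.log s) + Real.log (rh s) * Real.log (Real.log s) := by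
            ring
        _ ≤ Real.log (ρ s) * Real.log (Real.log s) + Real.log (rh s) * Real.log (Real.log s) ^ 2 :=
            add_le_add le_rfl (mul_le_mul_of_nonneg_left hsq hB0)

theorem adaptedR_up {ρ : ℕ → ℕ} {β : ℕ → ℕ → (ℕ → ℕ) → ℕ} (hβ : AdaptedR ρ β) :
    AdaptedR (up ρ) (hy ρ β) := by
  intro s p hp a a' h
  unfold hy
  by_cases h1 : p ≤ ρ s
  · rw [if_pos h1, if_pos h1]
    exact hβ s p h1 a a' (fun q hq => h q (hq.trans (le_max_left _ _)))
  · rw [if_neg h1, if_neg h1]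
    exact h p hp

theorem hpair_up (Z ρ : ℕ → ℕ) (β : ℕ → ℕ → (ℕ → ℕ) → ℕ) (a : ℕ → ℕ) :
    HPair Z (up ρ) (hy ρ β) a = HPair Z ρ β a := by
  funext n
  unfold HPair
  have hcls : ∀ p, (if p ≤ up ρ (root 4 n) then hy ρ β (root 4 n) p a else a p)
      = if p ≤ ρ (root 4 n) then β (root 4 n) p a else a p := by
    intro p
    unfold hy
    by_cases h1 : p ≤ ρ (root 4 n)
    · have h2 : p ≤ up ρ (root 4 n) := h1.trans (le_max_left _ _)
      rw [if_pos h2, if_pos h1]
    · rw [if_neg h1]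
      split_ifs <;> rfl
  simp only [hcls]

theorem t3v (h : T3G2) : T3VG := by
  intro c hc Z ρ hZ hρ β hβ Ω _ μ _ ω hω
  have h1 := h c hc Z (up ρ) hZ (thr2_up hρ) (hy ρ β) (adaptedR_up hβ) Ω μ ω hω
  filter_upwards [h1] with w hw
  intro b d hb hd
  have h2 := hw b d hb hd
  rw [hpair_up] at h2
  exact h2

theorem thr3_zero : Thr3 (fun _ => 0) where
  le := fun _ => Nat.zero_le _
  high := by
    simp

theorem t3vp (h : T3VG) : T3PG := by
  intro c hc Z hZ Ω _ μ _ ω hω
  have h1 := h c hc Z (fun _ => 0) hZ thr3_zero (fun _ p b => b p) (fun s p hp a a' h => h p hp)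
    Ω μ ω hω
  filter_upwards [h1] with w hw
  intro b d hb hd
  rw [rp_eq Z (fun _ => 0)]
  exact hw b d hb hd

end Pool.Agent.Helper76.TB
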