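import Pool.Agent.Helper33.TB.Final
import Pool.Agent.Helper12.TB.INV
import Pool.Agent.Helper14.TB.CORR2
import Pool.Agent.Helper35.TB.TRANS2
import Pool.Agent.Helper59.TB.TAIL0
import Pool.Agent.Helper79.TB.SIZE2
import Pool.Agent.Helper87.TB.UNI2
import Pool.Agent.Helper90.TB.LGW
import Pool.Agent.Helper35.TB.MEAN2
import Pool.Agent.Helper8.TB.BLK3
import Pool.Agent.Helper35.TB.EDV3
import Pool.Agent.Helper35.TB.DVS3
import Pool.Agent.Helper49.TB.LOW2
import Pool.Agent.Helper13.TB.WAV
import Pool.Agent.Helper80.TB.PTHA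
import Pool.Agent.Helper44.TB.PTHB
import Pool.Agent.Helper14.TB.CUTB
import Pool.Agent.Helper47.TB.GZL
import Pool.Agent.Helper65.TB.HB
import Pool.Agent.Helper70.TB.SEQ2
import Pool.Agent.Helper76.TB.T2U
import Pool.Agent.Helper76.TB.T3V

/-!
# Project TB: the final theorems, unconditional
-/

set_option autoImplicit false

namespace Pool.Agent.Helper76.TB

theorem uni2_final : UNI2G := by
  have hcorr : CORR2G := Helper14.TB.corr2
  exact Helper87.TB.uni2 hcorr Helper59.TB.tail0 (Helper35.TB.trans2 hcorr) Helper79.TB.size2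

theorem mean2_final : MEAN2G := Helper35.TB.mean2 uni2_final Helper33.TB.longgFinal

theorem t2u_final : T2UG :=
  t2u uni2_final (Helper90.TB.lgw Helper22.TB.e2_33) Helper33.TB.coregFinal Helper47.TB.gzl
    Helper65.TB.hb Helper70.TB.seq2

theorem t3g2_final : T3G2 := by
  have hlow : LOW2G := Helper49.TB.low2 Helper47.TB.gzl
  exact t3g2 (Helper8.TB.blk3 mean2_final) (Helper35.TB.dvs3 Helper35.TB.edv3) hlow
    (Helper13.TB.wav Helper33.TB.coregFinal hlow) Helper80.TB.ptha (Helper44.TB.pthb delta2)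

theorem t3v_final : T3VG := t3v t3g2_final

theorem t3b_final : T3BG := t3b (t3vp t3v_final) Helper14.TB.cutb

end Pool.Agent.Helper76.TB
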