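import Pool.Agent.Helper76.TB.Iface

/-!
# Project TB: the steps of the uniform version (part U)

Notation of the comments: `𝓛 F = Av (lg r Z) (fun B => ∑ t ∈ range N, F (XA Z B) t) A` (classes modulo
`p ≤ r` given by `A`, classes modulo `p ∈ (r, Z]` averaged), `𝓜 F = (1 / Q) ∑ t ∈ range Q, F (Xz Z) t`
the full-period average, `Q = ∏ p ∈ Ps Z, p`.
-/

set_option autoImplicit false

open Finset Filter Topology MeasureTheory ProbabilityTheory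

namespace Pool.Agent.Helper76.TB

open Pool.Agent.Helper90.Twin (Ps Gz Sz XX yy Xz avgI errB sig SieveSys)
open Pool.Agent.Helper60.BFT (XA yA Av lg B0 B1 B2 run chi len YF YP Pair T0 T1 T2 Rem mT)

/-- LOCAL: correlations when the classes modulo the primes in `(r, Z]` are averaged.

Proof (as `Helper9.BFT.kt`, without the separation hypothesis). `∏ i ∈ I, XA Z B (t + i)
= ∏ p ∈ Ps Z, g p (B p)` with `g p c = ∏ i ∈ I, (1 - yA (fun _ => c) p (t + i))`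
(`Helper9.BFT.prod_XA`). By `Helper60.BFT.Av_prod` (`s = Ps Z`, `L = lg r Z`,
`L.toFinset = Ps Z \ Ps r`, `Ps Z \ (Ps Z \ Ps r) = Ps r`) the left side is
`(∏ p ∈ Ps r, g p (A p)) * ∏ p ∈ Ps Z \ Ps r, (∑ c ∈ range p, g p c) / p`. The first factor is
`∏ i ∈ I, XA r A (t + i)`. By `SieveSys.avg_prod` (for `(sieveSys Z).mono`)
`avgI (Ps Z \ Ps r) yy I = ∏ p ∈ Ps Z \ Ps r, (∑ x ∈ range p, ∏ i ∈ I, (1 - yy p (x + i))) / p`.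
So it is enough that for a prime `p ≥ 5`: `∑ c ∈ range p, g p c = ∑ x ∈ range p, ∏ i ∈ I, (1 - yy p (x + i))`.
Bijection of `range p`: `x ↦ c = (6 x + 5 + 6 t (p - 1)) % p`; then `6 (t + i) + c ≡ 6 (x + i) + 5`
modulo `p`, so `yA (fun _ => c) p (t + i) = yy p (x + i)` for all `i`; injective because `6` is
invertible modulo `p`. -/
def LOCALG : Prop :=
  ∀ (r Z : ℕ), r ≤ Z → ∀ (I : Finset ℕ) (t : ℕ) (A : ℕ → ℕ),
    Av (lg r Z) (fun B => ∏ i ∈ I, XA Z B (t + i)) A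
      = avgI (Ps Z \ Ps r) yy I * ∏ i ∈ I, XA r A (t + i)

/-- INV: full-period averages do not depend on the classes and are multiplicative.

Proof. All four by `SieveSys.avg_prod` (`avgI s y I = ∏ p ∈ s, (∑ x ∈ range p, ∏ i ∈ I,
(1 - y p (x + i))) / p`), with `Helper32.BFT.sieveSysA` for `yA A` and `Helper90.Twin.sieveSys` for `yy`.
(1) for a prime `p ≥ 5`, `yA A p (x + i) = yy p (x' + i)` with `6 x' + 5 ≡ 6 x + A p` modulo `p`, and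
`x ↦ x'` is a bijection modulo `p` (or: both local sums are equal to
`∑ c ∈ range p, ∏ i ∈ I, (1 - yA (fun _ => c) p i)`, compare LOCAL). (2) `Finset.prod_sdiff`.
(3) every local factor is in `[0, 1]`. (4) `SieveSys.avg_one`. -/
def INVG : Prop :=
  (∀ (r : ℕ) (A : ℕ → ℕ) (I : Finset ℕ), avgI (Ps r) (yA A) I = avgI (Ps r) yy I) ∧
  (∀ (r Z : ℕ), r ≤ Z → ∀ I : Finset ℕ,
    avgI (Ps Z \ Ps r) yy I * avgI (Ps r) yy I = avgI (Ps Z) yy I) ∧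
  (∀ (r Z : ℕ) (I : Finset ℕ), 0 ≤ avgI (Ps Z \ Ps r) yy I ∧ avgI (Ps Z \ Ps r) yy I ≤ 1) ∧
  (∀ Z : ℕ, avgI (Ps Z) yy {0} = Gz Z)

/-- CORR: the averaged correlations.

Proof. (1) `Av_sum` and LOCAL: the average is `avgI (Ps Z \ Ps r) yy I * ∑ t ∈ range N,
∏ i ∈ I, XA r A (t + i)`; `XA r A = XX (Ps r) (yA A)`; `Helper90.Twin.corr` with `s' = ∅` (`cc ∅ = 1`,
`H = I.sup id`, the separation hypothesis is void) and `Helper32.BFT.sieveSysA` give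
`|∑ t - N * avgI (Ps r) (yA A) I| ≤ errB (Ps r) I.card m N`; multiply by
`avgI (Ps Z \ Ps r) yy I ∈ [0, 1]` and use INV (1), (2).
(2) LOCAL at `2 t` with `I = {0}` (`2 t + 0`), then `Helper90.Twin.brun` with `w p t = yA A p (2 t)`,
`κ = 2` (`Helper32.BFT.adm_yA2`, `mean_yA2`; `errB (Ps r) 1 m N` is its error), and `INV` (2), (4):
`avgI (Ps Z \ Ps r) yy {0} * Gz r = Gz Z`. -/
def CORRG : Prop :=
  (∀ (r Z : ℕ), r ≤ Z → ∀ (I : Finset ℕ) (A : ℕ → ℕ) (m N : ℕ),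
    |Av (lg r Z) (fun B => ∑ t ∈ range N, ∏ i ∈ I, XA Z B (t + i)) A - N * avgI (Ps Z) yy I|
      ≤ errB (Ps r) I.card m N) ∧
  (∀ (r Z : ℕ), r ≤ Z → ∀ (A : ℕ → ℕ) (m N : ℕ),
    |Av (lg r Z) (fun B => ∑ t ∈ range N, XA Z B (2 * t)) A - N * Gz Z| ≤ errB (Ps r) 1 m N)

/-- TRANS: the local statistic, by inclusion-exclusion in the positions truncated at order `R`.

Proof. Let `X` be `0/1`-valued. For `1 ≤ g ≤ H`, `Helper90.Twin.bonferroni_abs` (`s = Ioo 0 g`,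
`a i = X (t + i)`, `m = R`): `|∏ i ∈ Ioo 0 g, (1 - X (t + i)) - ∑ j ∈ range R, (-1) ^ j * EE (Ioo 0 g)
(fun i => X (t + i)) j| ≤ EE (Ioo 0 g) (fun i => X (t + i)) R`. So
`|phi c X H t - ∑ j ∈ range R, (-1) ^ j * S_j X t| ≤ U X t` with
`S_j X t = X t * ∑ g ∈ Icc 1 H, c g * X (t + g) * EE (Ioo 0 g) (fun i => X (t + i)) j` and
`U X t = X t * ∑ g ∈ Icc 1 H, X (t + g) * EE (Ioo 0 g) (fun i => X (t + i)) R`.
As in `key` in `Helper90.Twin.transfer` (TwinE), `S_j X t = ∑ g ∈ Icc 1 H, ∑ J ∈ (Ioo 0 g).powersetCard j,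
c g * ∏ i ∈ insert 0 (insert g J), X (t + i)`: at most `H ^ (j + 1)` sets, of cardinality `j + 2`
(`card_insert_two`, `card_powersetCard_Ioo_le`). By CORR (1),
`|𝓛 S_j - N * 𝓜 S_j| ≤ H ^ (j + 1) * errB (Ps r) (j + 2) m N ≤ H ^ R * errB (Ps r) (R + 2) m N` for `j < R`
(`errB` is monotone in `k`), and in the same way
`|𝓛 U - N * 𝓜 U| ≤ H ^ (R + 1) * errB (Ps r) (R + 2) m N`.
(`𝓜` of a product over `I` is `avgI (Ps Z) yy I`.) Also `𝓜 U ≤ TL Z H (R + 1)`: `X t ≤ 1` and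
`∑ g ∈ Icc 1 H, X (t + g) * EE (Ioo 0 g) .. R = ∑ J ∈ (Icc 1 H).powersetCard (R + 1), ∏ i ∈ J, X (t + i)`
(`g` is the maximum of `J`; only `≤` is needed). Hence
`|𝓛 phi - N * 𝓜 phi| ≤ 𝓛 U + ∑ j < R, |𝓛 S_j - N * 𝓜 S_j| + N * 𝓜 U
≤ 2 * N * 𝓜 U + H ^ (R + 1) * errB + R * H ^ R * errB`, and `H ≥ 1`. -/
def TRANSG : Prop :=
  ∀ (r Z H R m N : ℕ) (A : ℕ → ℕ) (c : ℕ → ℝ), r ≤ Z → 1 ≤ H → (∀ g, |c g| ≤ 1) →
    |Av (lg r Z) (fun B => ∑ t ∈ range N, phi c (XA Z B) H t) A - N * PAH Z H c|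
      ≤ (R + 1) * (H : ℝ) ^ (R + 1) * errB (Ps r) (R + 2) m N + 2 * N * TL Z H (R + 1)

/-- BT: upper bound sieve for a window, uniformly in its position.

Proof. `Helper90.Twin.fundamental` with `κ = 2`, `δ = 1`, `A = 10 / 3` gives `K` such that for large
`q`, all `t` and `H`, with `w p i = yy p (t + 1 + i)` (`Adm w 2`: translate of `Helper90.Twin.adm_yy`;
`nu w p = 2`, so the product of the means is `Gz q`):
`∑ i ∈ range H, Xz q (t + 1 + i) ≤ 2 * H * Gz q + H * exp (-(10 / 3) * Sz q) + q ^ K ≤ 3 * H * Gz q + q ^ K`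
(`Helper90.Twin.inv_Gz_le`). Take `q = Helper60.BFT.root (K + 1) H` (`q ^ (K + 1) ≤ H < (q + 1) ^ (K + 1)`,
see `Helper88.BFT.root_pow_le`, `lt_root_pow`, `root_tendsto`). Then `q ^ K ≤ H / q ≤ H * Gz q` for large `q`
(`1 / q ≤ Gz q`: `inv_Gz_le` and `Helper90.Twin.eventually_Sz_le`). So the sum over the window is
`≤ 4 * H * Gz q`. Since `q ≤ 3 H + 1`, `Xz (3 H + 1) ≤ Xz q` pointwise (product over a larger set of
factors in `[0, 1]`). Since `3 H + 1 ≤ 3 (q + 1) ^ (K + 1) ≤ q ^ (2 K + 4)` for large `q`,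
`Helper60.BFT.Sz_pow` gives `Sz (3 H + 1) ≤ Sz q + 12 (2 K + 4)`, and
`Gz q / Gz (3 H + 1) = ∏ p ∈ Ps (3 H + 1) \ Ps q, (1 - 2 / p)⁻¹ ≤ exp ((10 / 3) * (Sz (3 H + 1) - Sz q))`
(see the proof of `inv_Gz_le`: `(1 - 2 / p)⁻¹ ≤ exp ((10 / 3) / p)` for `p ≥ 5`). -/
def BTG : Prop :=
  ∃ C : ℝ, 1 ≤ C ∧ ∀ᶠ H : ℕ in atTop, ∀ t : ℕ,
    ∑ i ∈ Icc 1 H, Xz (3 * H + 1) (t + i) ≤ C * (H * Gz (3 * H + 1))

/-- TAIL: factorial moments of the number of chosen elements in a window.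

Proof. `Y = 3 H + 1`. `TL Z H k = ∑ J ∈ (Icc 1 H).powersetCard k, avgI (Ps Z) yy J`. For such `J` (all
elements `≤ H`), `INV` (2): `avgI (Ps Z) yy J = avgI (Ps Z \ Ps Y) yy J * avgI (Ps Y) yy J`, and for
`p ∈ Ps Z \ Ps Y` the local factor is `1 - 2 k / p` (`Helper90.Twin.separated`, as in the proof of
`Helper90.Twin.corr`, or `corr` itself), which is `≥ 0` because `2 k ≤ Y < p` and
`≤ (1 - 2 / p) ^ k` (Bernoulli, `one_add_mul_le_pow`). So the first factor is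
`≤ (∏ p ∈ Ps Z \ Ps Y, (1 - 2 / p)) ^ k = (Gz Z / Gz Y) ^ k`. Summing over `J`:
`TL Z H k ≤ (Gz Z / Gz Y) ^ k * TL Y H k`, and `TL Y H k` is the average over a period of
`EE (Icc 1 H) (fun i => Xz Y (u + i)) k ≤ (∑ i ∈ Icc 1 H, Xz Y (u + i)) ^ k / k!`
(`Helper90.Twin.EE_le`) `≤ (C * (H * Gz Y)) ^ k / k!` by BT. -/
def TAILG : Prop :=
  ∃ C : ℝ, 1 ≤ C ∧ ∀ᶠ H : ℕ in atTop, ∀ Z : ℕ, 3 * H + 1 ≤ Z → ∀ k : ℕ, 2 * k ≤ 3 * H + 1 →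
    TL Z H k ≤ (C * (H * Gz Z)) ^ k / (k.factorial : ℝ)

/-- HB: size of the window.

Proof. `log Z → ∞`, `l2 Z = log log Z → ∞`. `Helper90.Twin.inv_Gz_le_pow`:
`(Gz Z)⁻¹ ≤ exp 14 * LL Z ^ 14`, `LL Z = Nat.log 2 Z + 1 ≤ 2 * log Z + 1 ≤ 3 * log Z`
(`Nat.log 2 Z ≤ log Z / log 2`). So `HH Z ≤ 100 * l2 Z * exp 14 * (3 log Z) ^ 14 + 1 ≤ (log Z) ^ 16`
eventually (`l2 Z ≤ log Z`, `log Z → ∞`). `HH Z * Gz Z ≤ (100 * l2 Z / Gz Z + 1) * Gz Z ≤ 100 * l2 Z + 1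
≤ 101 * l2 Z`. `Helper90.Twin.Sz_le`: `Sz Z ≤ 4 + 4 * log (LL Z) ≤ 4 + 4 * (l2 Z + log 3) ≤ 6 * l2 Z`
eventually. `M * l2 Z ≤ 100 * l2 Z / Gz Z` as soon as `M * Gz Z ≤ 100`, and `Gz Z ≤ exp (-2 * Sz Z) → 0`
(`Gz_le_exp`, `tendsto_Sz`). `3 * HH Z + 1 ≤ 3 * (log Z) ^ 16 + 1 ≤ Z` eventually. -/
def HBG : Prop :=
  ∀ M : ℝ, ∀ᶠ Z : ℕ in atTop, 1 ≤ l2 Z ∧ M * l2 Z ≤ HH Z ∧ (HH Z : ℝ) ≤ Real.log Z ^ 16 ∧
    HH Z * Gz Z ≤ 101 * l2 Z ∧ Sz Z ≤ 6 * l2 Z ∧ 3 * HH Z + 1 ≤ Z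

/-- SIZE: choice of the parameters `R ≈ C1 log log Z` and `m ≈ C2 (log log Z) ^ 2`.

Proof. `L = l2 Z`, `Λ = log Z = exp L`, `H = HH Z`, HB. Put `C1 = 101 * C0 * exp 2 + 30`,
`C2 = 200 * (C1 + 4)`, `R = ⌈C1 * L⌉₊`, `m = ⌈C2 * L ^ 2⌉₊`, `k = R + 1`; `L ≥ 1` as large as we want.
(a) `(C0 * (H * Gz Z)) ^ k / k! ≤ (C0 * 101 * L) ^ k / k! ≤ (exp 1 * C0 * 101 * L / k) ^ k ≤ exp (-k)
≤ exp (-30 L) = Λ ^ (-30)` (`k! ≥ (k / e) ^ k`, and `k ≥ C1 * L ≥ exp 2 * 101 * C0 * L`); times `2 N` this is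
`≤ N / (4 Λ ^ 6)`. (b) `H ^ k ≤ Λ ^ (16 k) = exp (16 L k)`, `k ≤ C1 L + 2`. (c) `errB (Ps r) (R + 2) m N
= 2 N (2 (R + 2) Sz r) ^ m / m! + (1 + 2 (R + 2) #Ps r) ^ m`; `Sz r ≤ Sz Z ≤ 6 L`; first part:
`(12 (R + 2) L) ^ m / m! ≤ (exp 1 * 12 (R + 2) L / m) ^ m ≤ exp (-m)` since
`m ≥ 200 (C1 + 4) L ^ 2 ≥ exp 2 * 12 (R + 2) L` (`R + 2 ≤ (C1 + 3) L`); so
`k * H ^ k * 2 N * exp (-m) ≤ N * exp (L + 16 (C1 + 2) L ^ 2 - 200 (C1 + 4) L ^ 2 + 1) ≤ N / (8 Λ ^ 6)`.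
(d) second part: `#Ps r ≤ r`, `1 + 2 (R + 2) r ≤ 2 (R + 3) (r + 2) `, `log (2 (R + 3)) ≤ L` for large `L`, so
`k * H ^ k * (..) ^ m ≤ exp (L + 16 (C1 + 2) L ^ 2 + (C2 L ^ 2 + 1) (L + log (r + 2)))
≤ exp (log N - 6 L - 3) ≤ N / (8 Λ ^ 6)` if `C = C2 + 17 (C1 + 2) + 20` (use
`log N ≥ C L ^ 2 (log (r + 2) + L)`, `L ≥ 1`). (e) `3 * errB (Ps r) 1 m N ≤ k * H ^ k * errB (Ps r) (R + 2) m N`
(`errB` monotone in `k`, `k ≥ 3`) and `1 ≤ N / (2 Λ ^ 6)` (`log N ≥ C L ^ 3 ≥ 6 L + 1`).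
(f) `2 (R + 1) ≤ 2 (C1 + 2) L ≤ H` by HB with `M = 2 (C1 + 2)`. -/
def SIZEG : Prop :=
  ∀ C0 : ℝ, 1 ≤ C0 → ∃ C : ℝ, 1 ≤ C ∧ ∀ᶠ Z : ℕ in atTop, ∀ r ≤ Z, ∀ N : ℕ,
    C * l2 Z ^ 2 * (Real.log (r + 2) + l2 Z) ≤ Real.log N → ∃ R m : ℕ,
      2 * (R + 1) ≤ 3 * HH Z + 1 ∧
      (R + 1) * (HH Z : ℝ) ^ (R + 1) * errB (Ps r) (R + 2) m N
        + 2 * N * ((C0 * (HH Z * Gz Z)) ^ (R + 1) / ((R + 1).factorial : ℝ))
          ≤ N / Real.log Z ^ 6 ∧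
      3 * errB (Ps r) 1 m N + 1 ≤ N / Real.log Z ^ 6

/-- UNI: uniformity in `N`, in the classes modulo `p ≤ r`, and in the coefficients.

Proof. Constants from TAIL (`C0`) and SIZE; `HH Z → ∞` (HB), so the eventual statement of TAIL applies to
`H = HH Z`. First part: TRANS with `R, m` from SIZE and TAIL with `k = R + 1`. Second part: CORR (1) with
`I = {0}`, INV (4) and the last inequality of SIZE. Third part:
`∑ t ∈ range N, (-1) ^ t * X t = 2 * ∑ t ∈ range ((N + 1) / 2), X (2 * t) - ∑ t ∈ range N, X t`, so with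
`M = (N + 1) / 2` (`|2 M - N| ≤ 1`, `M ≤ N` since `N ≥ 1`), CORR (2) for `M` and CORR (1) for `N`:
`|𝓛 ((-1) ^ t X t)| ≤ 2 * errB (Ps r) 1 m M + errB (Ps r) 1 m N + 1 ≤ 3 * errB (Ps r) 1 m N + 1`. -/
def UNIG : Prop :=
  ∃ C : ℝ, 1 ≤ C ∧ ∀ᶠ Z : ℕ in atTop, ∀ r ≤ Z, ∀ N : ℕ,
    C * l2 Z ^ 2 * (Real.log (r + 2) + l2 Z) ≤ Real.log N → ∀ A : ℕ → ℕ,
      (∀ c : ℕ → ℝ, (∀ g, |c g| ≤ 1) →
        |Av (lg r Z) (fun B => ∑ t ∈ range N, phi c (XA Z B) (HH Z) t) A - N * PA Z c|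
          ≤ N / Real.log Z ^ 6) ∧
      |Av (lg r Z) (fun B => B0 (XA Z B) N) A - N * Gz Z| ≤ N / Real.log Z ^ 6 ∧
      |Av (lg r Z) (fun B => B1 (XA Z B) N) A| ≤ N / Real.log Z ^ 6

/-- SEQ2: the signed count of the consecutive pairs and the local statistic.

Proof. For `0/1`-valued `X` and `H ≥ 1` put `e t = X t - phi (fun _ => 1) X H t`. By
`∑ g ∈ Icc 1 H, X (t + g) * ∏ i ∈ Ioo 0 g, (1 - X (t + i)) = 1 - ∏ i ∈ Icc 1 H, (1 - X (t + i))` (induction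
on `H`), `e t = X t * ∏ i ∈ Icc 1 H, (1 - X (t + i)) ≥ 0`, and `e t = 1` if `X t = 1` and the next chosen
element is `> t + H` (or there is none). If `X t = 1` and the next chosen element is `u`, then
`phi sg X H t = (-1) ^ (u - t)` if `u ≤ t + H` (`Helper90.Twin.sig_of_next`) and `= 0` if `u > t + H`
(`sig_of_no_next`); if `X t = 0` it is `0`. Claim, by induction on `n` (compare `Helper64` LipSeq,
`seq`): let `l` be the last chosen element `< n` (if there is one); then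
`|B2 X n - ∑ t ∈ range n, t ≠ l, phi sg X H t| ≤ ∑ t ∈ range n, t ≠ l, e t` (without `l` if there is none),
and `(run (fun t => (-1) ^ t) X n).2 = (-1) ^ l` (`0` if there is none). Step: if `X n = 0` nothing
changes (`phi sg X H n = e n = 0`). If `X n = 1`: `B2` grows by `(-1) ^ n * (-1) ^ l` (`0` if there is no `l`), the last chosen
element is now `n`, the sum grows by `phi sg X H l`, which is `(-1) ^ (n - l)` if `n ≤ l + H`, and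
otherwise `0` with `e l = 1`. At the end `|phi sg X H l| ≤ 1` and `e ≥ 0`. -/
def SEQ2G : Prop :=
  ∀ (X : ℕ → ℝ), (∀ n, X n = 0 ∨ X n = 1) → ∀ (H N : ℕ), 1 ≤ H →
    |B2 X N - ∑ t ∈ range N, phi sg X H t|
      ≤ ∑ t ∈ range N, (X t - phi (fun _ => 1) X H t) + 1

/-- MEAN: the three means.

Proof. From UNI, SEQ2, LONG. The first two bounds are weaker than UNI. Third: `XA Z B` is `0/1`-valued
(`Helper60.BFT.XA_zero_one`); by SEQ2 with `H = HH Z ≥ 1` (HB) and linearity and monotonicity of `Av`,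
`|𝓛 B2 - 𝓛 (∑ phi sg)| ≤ Av (∑ t (X t - phi 1 X H t)) + 1 ≤ N * Gz Z - N * PA Z 1 + 2 N / log ^ 6 Z + 1
≤ 3 N / log ^ 6 Z + 1` by UNI (`c = 1`) and LONG, and `|𝓛 (∑ phi sg) - N * PA Z sg| ≤ N / log ^ 6 Z`
(UNI, `c = sg`). The total `4 N / log ^ 6 Z + 1 ≤ N / log ^ 5 Z` for large `Z` (`log Z ≥ 5`, and
`1 ≤ N / log ^ 6 Z` because `log N ≥ C * l2 Z ^ 3 ≥ 6 * l2 Z` for large `Z`). -/
def MEANG : Prop :=
  ∃ C : ℝ, 1 ≤ C ∧ ∀ᶠ Z : ℕ in atTop, ∀ r ≤ Z, ∀ N : ℕ,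
    C * l2 Z ^ 2 * (Real.log (r + 2) + l2 Z) ≤ Real.log N → ∀ A : ℕ → ℕ,
      |Av (lg r Z) (fun B => B0 (XA Z B) N) A - N * Gz Z| ≤ N / Real.log Z ^ 5 ∧
      |Av (lg r Z) (fun B => B1 (XA Z B) N) A| ≤ N / Real.log Z ^ 5 ∧
      |Av (lg r Z) (fun B => B2 (XA Z B) N) A - N * PA Z sg| ≤ N / Real.log Z ^ 5

end Pool.Agent.Helper76.TB
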