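import Pool.Agent.Helper76.TB.Delta2
import Pool.Agent.Helper76.TB.Basic
import Pool.Agent.Helper18.BFT.Blk
import Pool.Agent.Helper60.BFT.Core

/-!
# T2: rough twin pairs
-/

set_option autoImplicit false

open Finset Filter Topology

namespace Pool.Agent.Helper76.TB

open Pool.Agent.Helper90.Twin (Ps Gz XX yy Xz mem_Ps bad)
open Pool.Agent.Helper60.BFT (XA yA Av lg B0 B1 B2 run chi delta)

/-- `(n, n + 2)` is a `z`-rough pair -/
def RT (z n : ℕ) : Prop := ∀ p : ℕ, p.Prime → p ≤ z → ¬ p ∣ n ∧ ¬ p ∣ (n + 2)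

theorem rt_iff {z : ℕ} (hz : 3 ≤ z) (n : ℕ) :
    RT z n ↔ n % 6 = 5 ∧ Xz z ((n - 5) / 6) = 1 := by
  constructor
  · intro h
    have h2 := h 2 (by norm_num) (by omega)
    have h3 := h 3 (by norm_num) (by omega)
    have h6 : n % 6 = 5 := by
      have e1 : n % 2 = 1 := by omega
      have e2 : n % 3 = 2 := by omega
      omega
    refine ⟨h6, ?_⟩
    unfold Xz XX
    apply Finset.prod_eq_one
    intro p hp
    rw [mem_Ps] at hp
    have hp' := h p hp.2.2 hp.2.1
    have e1 : 6 * ((n - 5) / 6) + 5 = n := by omega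
    have e2 : 6 * ((n - 5) / 6) + 7 = n + 2 := by omega
    have : ¬ bad p ((n - 5) / 6) := by
      unfold bad
      rw [e1, e2]
      tauto
    unfold yy
    rw [if_neg this]
    ring
  · rintro ⟨h6, hX⟩ p hp hpz
    have e1 : 6 * ((n - 5) / 6) + 5 = n := by omega
    have e2 : 6 * ((n - 5) / 6) + 7 = n + 2 := by omega
    rcases Nat.lt_or_ge p 5 with h | h
    · have hp2 := hp.two_le
      have h4 : p ≠ 4 := by
        rintro rfl
        norm_num at hp
      have : p = 2 ∨ p = 3 := by omega
      rcases this with rfl | rfl <;> omega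
    · have hmem : p ∈ Ps z := mem_Ps.2 ⟨h, hpz, hp⟩
      by_contra hcon
      have hb : bad p ((n - 5) / 6) := by
        unfold bad
        rw [e1, e2]
        tauto
      have : Xz z ((n - 5) / 6) = 0 := by
        unfold Xz XX
        apply Finset.prod_eq_zero hmem
        unfold yy
        rw [if_pos hb]
        ring
      rw [this] at hX
      norm_num at hX

theorem rt_infinite (z : ℕ) : (Set.ofPred (RT z)).Infinite := by
  rw [Set.infinite_iff_exists_gt]
  intro a
  have hf := Nat.factorial_pos z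
  have hn : a + 2 ≤ (a + 2) * z.factorial := Nat.le_mul_of_pos_right _ hf
  refine ⟨(a + 2) * z.factorial - 1, ?_, by omega⟩
  intro p hp hpz
  have h1 : p ∣ (a + 2) * z.factorial := ((hp.dvd_factorial).2 hpz).mul_left _
  constructor
  · intro h2
    have h3 : p ∣ (a + 2) * z.factorial - ((a + 2) * z.factorial - 1) := Nat.dvd_sub h1 h2
    have h4 : (a + 2) * z.factorial - ((a + 2) * z.factorial - 1) = 1 := by omega
    rw [h4] at h3
    exact hp.one_lt.ne' (Nat.dvd_one.1 h3)
  · intro h2
    have h3 : p ∣ ((a + 2) * z.factorial - 1 + 2) - (a + 2) * z.factorial := Nat.dvd_sub h2 h1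
    have h4 : ((a + 2) * z.factorial - 1 + 2) - (a + 2) * z.factorial = 1 := by omega
    rw [h4] at h3
    exact hp.one_lt.ne' (Nat.dvd_one.1 h3)

theorem XA_five (z t : ℕ) : XA z (fun _ => 5) t = Xz z t := by
  unfold XA Xz XX
  apply Finset.prod_congr rfl
  intro p _
  have h : yA (fun _ => 5) p t = yy p t := by
    unfold yA yy
    have hiff : Helper60.BFT.bad (fun _ => 5) p t ↔ bad p t := by
      unfold Helper60.BFT.bad bad
      exact Iff.rfl
    by_cases hb : bad p t
    · rw [if_pos (hiff.2 hb), if_pos hb]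
    · rw [if_neg (fun h => hb (hiff.1 h)), if_neg hb]
  rw [h]

theorem ind_rt {z : ℕ} (hz : 3 ≤ z) (t : ℕ) : ind (RT z) (5 + 6 * t) = XA z (fun _ => 5) t := by
  rw [XA_five]
  have e : (5 + 6 * t - 5) / 6 = t := by omega
  unfold ind
  by_cases h : RT z (5 + 6 * t)
  · rw [if_pos h]
    have := ((rt_iff hz _).1 h).2
    rw [e] at this
    exact this.symm
  · rw [if_neg h]
    rcases (Helper90.Twin.sieveSys z).XX_zero_one t with h1 | h1
    · exact h1.symm
    · exfalso
      apply h
      rw [rt_iff hz, e]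
      exact ⟨by omega, h1⟩

theorem ind_rt_zero {z : ℕ} (hz : 3 ≤ z) (i : ℕ) (hi : i % 6 ≠ 5) : ind (RT z) i = 0 := by
  unfold ind
  rw [if_neg]
  intro h
  exact hi ((rt_iff hz _).1 h).1

theorem chi_five (t : ℕ) : chi (5 + 6 * t) = (-1 : ℝ) ^ t := by
  rw [Helper18.BFT.chi_add 5 t (by norm_num)]
  have : chi 5 = 1 := by
    unfold chi
    norm_num
  rw [this, one_mul]

theorem lg_self (z : ℕ) : lg z z = [] := by
  unfold lg
  rw [Finset.sdiff_self, Finset.toList_empty]

/-- the statement T2 -/
def T2G : Prop :=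
  ∃ C : ℝ, 0 < C ∧ ∀ ε : ℝ, 0 < ε → ∃ z₀ : ℕ, ∀ z x : ℕ, z₀ ≤ z →
    C * Real.log (Real.log z) ^ 2 * Real.log z ≤ Real.log x →
    ∀ a b : ℕ, (a = 1 ∨ a = 3) → (b = 1 ∨ b = 3) →
      |(Real.log z / Real.log (Real.log z)) ^ 2 * (delta (RT z) x a b - 1 / 2)
        - (if a = b then -1 else 1) * (Real.exp (-2 * Real.eulerMascheroniConstant) / 2)| ≤ ε

theorem tlog : Tendsto (fun z : ℕ => Real.log (z : ℝ)) atTop atTop :=
  Real.tendsto_log_atTop.comp tendsto_natCast_atTop_atTop

theorem tl2 : Tendsto l2 atTop atTop := Real.tendsto_log_atTop.comp tlog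

theorem t2 (hM : MEANG) (hC : COREG) (hG : GZLG) : T2G := by
  obtain ⟨C, hC1, hM⟩ := hM
  obtain ⟨c, C', hc, hGev⟩ := hG
  refine ⟨3 * C + 3, by linarith, ?_⟩
  intro ε hε
  have hCε := (Metric.tendsto_nhds.1 hC) (ε / 2) (by positivity)
  have hloglog : ∀ᶠ z : ℕ in atTop, l2 z ≤ Real.log z := by
    have h1 : ∀ᶠ x : ℝ in atTop, ‖Real.log x‖ ≤ 1 * ‖id x‖ :=
      (Asymptotics.isLittleO_iff.1 Real.isLittleO_log_id_atTop) (by norm_num)
    filter_upwards [tlog.eventually h1, tlog.eventually_ge_atTop 1] with z h2 h3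
    rw [Real.norm_eq_abs, Real.norm_eq_abs, one_mul] at h2
    simp only [id] at h2
    rw [abs_of_pos (by linarith : (0 : ℝ) < Real.log z)] at h2
    exact (le_abs_self _).trans h2
  have hall : ∀ᶠ z : ℕ in atTop, ∀ x : ℕ,
      (3 * C + 3) * Real.log (Real.log z) ^ 2 * Real.log z ≤ Real.log x →
      ∀ a b : ℕ, (a = 1 ∨ a = 3) → (b = 1 ∨ b = 3) →
      |(Real.log z / Real.log (Real.log z)) ^ 2 * (delta (RT z) x a b - 1 / 2)
        - (if a = b then -1 else 1) * (Real.exp (-2 * Real.eulerMascheroniConstant) / 2)| ≤ ε := by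
    filter_upwards [hM, hGev, hCε, hloglog, tlog.eventually_ge_atTop (4 + 100 / c + 8 / (c * ε)),
      tl2.eventually_ge_atTop 6, eventually_ge_atTop 12] with z hz hGz hCz hll hlog hl2 hz12
    intro x hx a b ha hb
    have hz3 : 3 ≤ z := by omega
    have hx0 : 0 < c * ε := by positivity
    have hp1 : 0 < 100 / c := by positivity
    have hp2 : 0 < 8 / (c * ε) := by positivity
    have hlog4 : 4 ≤ Real.log z := by linarith
    have hlog0 : 0 < Real.log z := by linarith
    have hl2' : l2 z = Real.log (Real.log z) := rfl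
    rw [← hl2'] at hx ⊢
    have hGpos := Helper90.Twin.Gz_pos z
    have hG1 := Helper90.Twin.Gz_le_one z
    -- the length
    set N : ℕ := Helper18.BFT.cnt 5 (x + 1) with hN
    have hN' : N = (x + 1) / 6 := by
      rw [hN]
      unfold Helper18.BFT.cnt
      omega
    have hxbig : 36 * Real.log z ≤ Real.log x := by
      refine le_trans ?_ hx
      apply mul_le_mul_of_nonneg_right _ hlog0.le
      nlinarith
    have hx12 : 12 ≤ x := by
      by_contra hcon
      push Not at hcon
      have h1 : (x : ℝ) ≤ 12 := by exact_mod_cast hcon.le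
      have h2 : Real.log x ≤ Real.log 12 := by
        rcases Nat.eq_zero_or_pos x with h0 | h0
        · rw [h0]
          simp
          positivity
        · exact Real.log_le_log (by exact_mod_cast h0) h1
      have h3 : Real.log (12 : ℝ) ≤ Real.log z := Real.log_le_log (by norm_num) (by exact_mod_cast hz12)
      nlinarith
    have hNx : (x : ℝ) / 12 ≤ N := by
      have h1 : x ≤ 12 * N := by omega
      have h2 : (x : ℝ) ≤ 12 * N := by exact_mod_cast h1
      linarith
    have hx0' : (0 : ℝ) < x := by exact_mod_cast (by omega : 0 < x)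
    have hNpos : (0 : ℝ) < N := lt_of_lt_of_le (by positivity) hNx
    have hlogN : Real.log x - Real.log 12 ≤ Real.log N := by
      rw [← Real.log_div hx0'.ne' (by norm_num)]
      exact Real.log_le_log (by positivity) hNx
    have hlog12 : Real.log (12 : ℝ) ≤ Real.log z := Real.log_le_log (by norm_num) (by exact_mod_cast hz12)
    have hz2 : Real.log ((z : ℝ) + 2) ≤ 2 * Real.log z := by
      have h1 : (12 : ℝ) ≤ z := by exact_mod_cast hz12
      have h2 : (z : ℝ) + 2 ≤ (z : ℝ) ^ 2 := by nlinarith
      calc Real.log ((z : ℝ) + 2) ≤ Real.log ((z : ℝ) ^ 2) := Real.log_le_log (by linarith) h2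
        _ = 2 * Real.log z := by rw [Real.log_pow]; norm_num
    have hcond : C * l2 z ^ 2 * (Real.log (z + 2) + l2 z) ≤ Real.log N := by
      have h1 : C * l2 z ^ 2 * (Real.log (z + 2) + l2 z) ≤ C * l2 z ^ 2 * (3 * Real.log z) := by
        apply mul_le_mul_of_nonneg_left _ (by positivity)
        linarith
      have h2 : C * l2 z ^ 2 * (3 * Real.log z) + 3 * l2 z ^ 2 * Real.log z ≤ Real.log x := by
        refine le_trans (le_of_eq ?_) hx
        ring
      have h3 : Real.log 12 ≤ 3 * l2 z ^ 2 * Real.log z := by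
        have : 1 ≤ 3 * l2 z ^ 2 := by nlinarith
        nlinarith
      linarith
    obtain ⟨m0, m1, m2⟩ := hz z le_rfl N hcond (fun _ => 5)
    rw [lg_self, Helper60.BFT.Av_nil] at m0 m1 m2
    -- size of N
    have hNbig : 36 * Real.log z - Real.log z ≤ Real.log N := by linarith
    have hNz : (Real.log z) ^ 5 * 3 ≤ N := by
      have h1 : Real.log z ^ 5 * 3 ≤ (z : ℝ) ^ 6 := by
        have h2 : Real.log z ≤ z := (Real.log_le_self (by positivity))
        have h3 : (12 : ℝ) ≤ z := by exact_mod_cast hz12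
        calc Real.log z ^ 5 * 3 ≤ (z : ℝ) ^ 5 * z := by
              apply mul_le_mul (pow_le_pow_left₀ hlog0.le h2 5) (by linarith) (by norm_num) (by positivity)
          _ = (z : ℝ) ^ 6 := by ring
      have h4 : (z : ℝ) ^ 6 ≤ N := by
        have hz0 : (0 : ℝ) < z := by exact_mod_cast (by omega : 0 < z)
        rw [← Real.log_le_log_iff (by positivity) hNpos, Real.log_pow]
        push_cast
        linarith
      linarith
    -- parameters
    set e : ℝ := 1 / (c * Real.log z ^ 3) with he
    have he0 : 0 < e := by positivity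
    have hlog3 : Real.log z ≤ Real.log z ^ 3 := by nlinarith [sq_nonneg (Real.log z)]
    have hclog : 100 ≤ c * Real.log z := by
      have h1 : 100 / c ≤ Real.log z := by linarith
      rw [div_le_iff₀ hc] at h1
      linarith
    have he1 : e ≤ 1 / 100 := by
      rw [he]
      apply div_le_div_of_nonneg_left zero_le_one (by norm_num)
      nlinarith
    have heG : 1 / Real.log z ^ 5 ≤ e * Gz z := by
      rw [he, div_mul_eq_mul_div, one_mul, div_le_div_iff₀ (by positivity) (by positivity), one_mul]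
      have : Gz z * Real.log z ^ 5 = (Gz z * Real.log z ^ 2) * Real.log z ^ 3 := by ring
      rw [this]
      exact mul_le_mul_of_nonneg_right hGz.1 (by positivity)
    have heW : (N : ℝ) / Real.log z ^ 5 ≤ e * (N * Gz z) := by
      have e1 : (N : ℝ) / Real.log z ^ 5 = N * (1 / Real.log z ^ 5) := by ring
      have e2 : e * (N * Gz z) = N * (e * Gz z) := by ring
      rw [e1, e2]
      exact mul_le_mul_of_nonneg_left heG hNpos.le
    have hW3 : 3 ≤ e * (N * Gz z) := by
      refine le_trans ?_ heW
      rw [le_div_iff₀ (by positivity)]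
      linarith
    -- the three sums
    have hs0 : ∑ n ∈ range (x + 1), ind (RT z) n = B0 (XA z (fun _ => 5)) N := by
      rw [Helper18.BFT.sum_prog (by norm_num : 5 < 6) (ind (RT z)) (fun i hi => ind_rt_zero hz3 i hi)]
      unfold B0
      exact Finset.sum_congr rfl (fun t _ => ind_rt hz3 t)
    have hs1 : ∑ n ∈ range (x + 1), ind (RT z) n * chi n = B1 (XA z (fun _ => 5)) N := by
      rw [Helper18.BFT.sum_prog (by norm_num : 5 < 6) (fun n => ind (RT z) n * chi n)
        (fun i hi => by simp only [ind_rt_zero hz3 i hi, zero_mul])]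
      unfold B1
      refine Finset.sum_congr rfl (fun t _ => ?_)
      rw [ind_rt hz3 t, chi_five]
      ring
    have hs2 : (run chi (ind (RT z)) (x + 1)).1 = B2 (XA z (fun _ => 5)) N := by
      rw [Helper18.BFT.run_prog (by norm_num : 5 < 6) chi (ind (RT z))
        (fun i hi => ind_rt_zero hz3 i hi)]
      rw [Helper18.BFT.run_congr _ (fun t => (-1 : ℝ) ^ t) _ (XA z (fun _ => 5))
        (fun t => chi_five t) (fun t => ind_rt hz3 t)]
      rfl
    have hDW : DD z * (N * Gz z) = N * PA z sg := by
      rw [← DD_mul]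
      ring
    have hfin := delta2 (RT z) (rt_infinite z)
      (fun n hn => by have := ((rt_iff hz3 n).1 hn).1; omega) x e (N * Gz z) (DD z) he0 he1
      (abs_DD_le z) hW3 (by rw [hs0]; exact m0.trans heW) (by rw [hs1]; exact m1.trans heW)
      (by rw [hs2, hDW]; exact m2.trans heW) a b ha hb
    -- conclusion
    set u : ℝ := (Real.log z / l2 z) ^ 2 with hu
    have hu0 : 0 ≤ u := sq_nonneg _
    have hu1 : u ≤ Real.log z ^ 2 := by
      apply pow_le_pow_left₀ (div_nonneg hlog0.le (by linarith))
      exact div_le_self hlog0.le (by linarith)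
    have h4 : u * (4 * e) ≤ ε / 2 := by
      calc u * (4 * e) ≤ Real.log z ^ 2 * (4 * e) := mul_le_mul_of_nonneg_right hu1 (by linarith)
        _ = 4 / (c * Real.log z) := by
            rw [he]
            field_simp
        _ ≤ ε / 2 := by
            rw [div_le_div_iff₀ (by positivity) (by norm_num)]
            have h5 : 8 / (c * ε) ≤ Real.log z := by linarith
            rw [div_le_iff₀ hx0] at h5
            nlinarith
    rw [Real.dist_eq] at hCz
    set s : ℝ := if a = b then 1 else -1 with hs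
    have hsabs : |s| = 1 := by
      rw [hs]
      split_ifs <;> simp
    have hs' : (if a = b then (-1 : ℝ) else 1) = -s := by
      rw [hs]
      split_ifs <;> simp
    rw [hs']
    have e6 : u * (delta (RT z) x a b - 1 / 2)
        - -s * (Real.exp (-2 * Real.eulerMascheroniConstant) / 2)
        = u * (delta (RT z) x a b - 1 / 2 - s * (DD z / 2))
          + s / 2 * (u * DD z - -Real.exp (-2 * Real.eulerMascheroniConstant)) := by ring
    rw [e6]
    refine (abs_add_le _ _).trans ?_
    have e7 : |u * (delta (RT z) x a b - 1 / 2 - s * (DD z / 2))| ≤ ε / 2 := by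
      rw [abs_mul, abs_of_nonneg hu0]
      exact (mul_le_mul_of_nonneg_left hfin hu0).trans h4
    have e8 : |s / 2 * (u * DD z - -Real.exp (-2 * Real.eulerMascheroniConstant))| ≤ ε / 2 := by
      rw [abs_mul, abs_div, hsabs]
      have e9 : |u * DD z - -Real.exp (-2 * Real.eulerMascheroniConstant)| < ε / 2 := hCz
      have e10 : (0 : ℝ) ≤ |u * DD z - -Real.exp (-2 * Real.eulerMascheroniConstant)| := abs_nonneg _
      rw [abs_of_pos (by norm_num : (0 : ℝ) < 2)]
      linarith
    linarith
  obtain ⟨z₀, hz₀⟩ := eventually_atTop.1 hall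
  exact ⟨z₀, fun z x hz hx a b ha hb => hz₀ z hz x hx a b ha hb⟩

end Pool.Agent.Helper76.TB
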