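import Pool.Agent.Helper76.TB.GoalsT

/-!
# T3: the random sieve
-/

set_option autoImplicit false

open Finset Filter Topology MeasureTheory ProbabilityTheory

namespace Pool.Agent.Helper76.TB

open Pool.Agent.Helper60.BFT (root delta Pair Uni cls)

/-- the classes modulo `p ≤ ρ s` depend only on the classes modulo `q ≤ ρ s` -/
def AdaptedR (ρ : ℕ → ℕ) (β : ℕ → ℕ → (ℕ → ℕ) → ℕ) : Prop :=
  ∀ s p : ℕ, p ≤ ρ s → ∀ a a' : ℕ → ℕ, (∀ q ≤ ρ s, a q = a' q) → β s p a = β s p a'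

/-- `(n, n + 2)` is a surviving pair of odd integers -/
def HPair (Z ρ : ℕ → ℕ) (β : ℕ → ℕ → (ℕ → ℕ) → ℕ) (a : ℕ → ℕ) (n : ℕ) : Prop :=
  n % 2 = 1 ∧ ∀ p : ℕ, p.Prime → 3 ≤ p → p ≤ Z n →
    ¬ n ≡ (if p ≤ ρ (root 4 n) then β (root 4 n) p a else a p) [MOD p] ∧
    ¬ n + 2 ≡ (if p ≤ ρ (root 4 n) then β (root 4 n) p a else a p) [MOD p]

/-- `(n, n + 2)` is a surviving pair of odd integers of the random sieve (removed classes `a p`). -/
def RP (Z : ℕ → ℕ) (a : ℕ → ℕ) (n : ℕ) : Prop :=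
  n % 2 = 1 ∧ ∀ p : ℕ, p.Prime → 3 ≤ p → p ≤ Z n → ¬ n ≡ a p [MOD p] ∧ ¬ n + 2 ≡ a p [MOD p]

/-- the hybrid choice of classes -/
def hy (ρ : ℕ → ℕ) (β : ℕ → ℕ → (ℕ → ℕ) → ℕ) (s p : ℕ) (a : ℕ → ℕ) : ℕ :=
  if p ≤ ρ s then β s p a else a p

theorem hy_adH {ρ : ℕ → ℕ} {β : ℕ → ℕ → (ℕ → ℕ) → ℕ} (hβ : AdaptedR ρ β) : AdH ρ (hy ρ β) where
  small := by
    intro r p hp a a' h
    unfold hy
    rw [if_pos hp, if_pos hp]
    exact hβ r p hp a a' h
  large := by
    intro r p hp a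
    unfold hy
    rw [if_neg (not_le.2 hp)]

theorem cls_hy {ρ : ℕ → ℕ} (hρ : ∀ s, ρ s ≤ s) (β : ℕ → ℕ → (ℕ → ℕ) → ℕ) (a : ℕ → ℕ) (n p : ℕ) :
    cls 4 (hy ρ β) a n p = if p ≤ ρ (root 4 n) then β (root 4 n) p a else a p := by
  unfold cls hy
  have h := hρ (root 4 n)
  by_cases h1 : p ≤ ρ (root 4 n)
  · rw [if_pos (h1.trans h), if_pos h1]
  · rw [if_neg h1]
    simp

theorem hpair_eq {ρ : ℕ → ℕ} (hρ : ∀ s, ρ s ≤ s) (Z : ℕ → ℕ) (β : ℕ → ℕ → (ℕ → ℕ) → ℕ)
    (a : ℕ → ℕ) : HPair Z ρ β a = Pair 4 Z (hy ρ β) a := by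
  funext n
  unfold HPair Pair
  simp only [cls_hy hρ]

/-- the statement T3 -/
def T3G : Prop :=
  ∀ (c : ℝ), 0 < c → ∀ (Z ρ : ℕ → ℕ), CutL c Z → Thr ρ → ∀ β : ℕ → ℕ → (ℕ → ℕ) → ℕ, AdaptedR ρ β →
    ∀ (Ω : Type) [MeasurableSpace Ω] (μ : Measure Ω) [IsProbabilityMeasure μ] (ω : ℕ → Ω → ℕ),
      Uni μ ω → ∀ᵐ w ∂μ, ∀ b d : ℕ, (b = 1 ∨ b = 3) → (d = 1 ∨ d = 3) →
        Tendsto (fun x : ℕ => (Real.log x / Real.log (Real.log x)) ^ 2 *
          (delta (HPair Z ρ β (fun p => ω p w)) x b d - 1 / 2)) atTop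
          (𝓝 ((if b = d then -1 else 1) *
            (Real.exp (-2 * Real.eulerMascheroniConstant) / (2 * c ^ 2))))

theorem t3 (hBLK : BLK2G) (hDVS : DVS2G) (hLOW : LOW2G) (hW : WAVG) (hA : PTHAG) (hB : PTHBG) :
    T3G := by
  intro c hc Z ρ hZ hρ β hβ Ω _ μ _ ω hω
  have hAd := hy_adH hβ
  obtain ⟨C, hC⟩ := hBLK c hc Z ρ hZ hρ
  obtain ⟨c', hc', hlow⟩ := hLOW Z hZ.le
  filter_upwards [hDVS c hc Z ρ hZ hρ Ω μ ω hω (hy ρ β) hAd] with w hw
  intro b d hb hd
  have hP : PathH Z ρ (hy ρ β) (fun p => ω p w) C c' :=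
    { pos := hc'
      blk := hC.mono (fun r hr => hr (hy ρ β) hAd _)
      dev := hw
      low := hlow }
  have h1 := hB Z (hy ρ β) (fun p => ω p w) _ (fun η hη => hA Z ρ (hy ρ β) _ C c' hP η hη)
    (hW c hc Z hZ) b d hb hd
  rw [hpair_eq hρ.le]
  have e : (if b = d then (1 : ℝ) else -1) *
      (8 * (-Real.exp (-2 * Real.eulerMascheroniConstant) / (16 * c ^ 2)))
      = (if b = d then -1 else 1) *
        (Real.exp (-2 * Real.eulerMascheroniConstant) / (2 * c ^ 2)) := by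
    have hc0 : c ≠ 0 := hc.ne'
    split_ifs <;> (field_simp; ring)
  rw [e] at h1
  exact h1

/-! ### The Banks-Ford-Tao model -/

/-- the threshold used for the purely random sieve -/
noncomputable def rh (s : ℕ) : ℕ := min s ⌈Real.log s ^ 20⌉₊

theorem thr_rh : Thr rh where
  le := fun s => min_le_left _ _
  low := by
    have h1 : ∀ᶠ x : ℝ in atTop, ‖Real.log x ^ 20‖ ≤ 1 * ‖id x‖ :=
      (Asymptotics.isLittleO_iff.1 (Real.isLittleO_pow_log_id_atTop (n := 20))) (by norm_num)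
    filter_upwards [tendsto_natCast_atTop_atTop.eventually h1] with s hs
    rw [one_mul, Real.norm_eq_abs, Real.norm_eq_abs] at hs
    simp only [id] at hs
    rw [Nat.abs_cast] at hs
    unfold rh
    rw [Nat.cast_min]
    exact le_min ((le_abs_self _).trans hs) (Nat.le_ceil _)
  high := by
    have hlog : Tendsto (fun s : ℕ => Real.log (s : ℝ)) atTop atTop :=
      Real.tendsto_log_atTop.comp tendsto_natCast_atTop_atTop
    have h1 : Tendsto (fun s : ℕ => 21 * (Real.log (Real.log s) ^ 3 / Real.log s)) atTop (𝓝 0) := by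
      have h2 : Tendsto (fun x : ℝ => Real.log x ^ 3 / x) atTop (𝓝 0) :=
        (Real.isLittleO_pow_log_id_atTop (n := 3)).tendsto_div_nhds_zero
      have h3 := (h2.comp hlog).const_mul 21
      rw [mul_zero] at h3
      exact h3
    refine squeeze_zero' ?_ ?_ h1
    · filter_upwards [hlog.eventually_ge_atTop 1] with s hs
      apply div_nonneg _ (by linarith)
      exact mul_nonneg (Real.log_natCast_nonneg _) (sq_nonneg _)
    · filter_upwards [hlog.eventually_ge_atTop (Real.exp 1)] with s hs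
      have he : (2 : ℝ) ≤ Real.exp 1 := by
        have := Real.add_one_le_exp (1 : ℝ)
        linarith
      have hs1 : (2 : ℝ) ≤ Real.log s := by linarith
      have hll : 1 ≤ Real.log (Real.log s) := by
        rw [← Real.log_exp 1]
        exact Real.log_le_log (Real.exp_pos 1) hs
      have h2 : Real.log (rh s) ≤ 21 * Real.log (Real.log s) := by
        have h3 : (rh s : ℝ) ≤ Real.log s ^ 20 + 1 := by
          have h4 : (rh s : ℝ) ≤ (⌈Real.log s ^ 20⌉₊ : ℝ) := by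
            unfold rh
            exact_mod_cast min_le_right _ _
          exact h4.trans (Nat.ceil_lt_add_one (by positivity)).le
        have h5 : Real.log s ^ 20 + 1 ≤ Real.log s ^ 21 := by
          have h6 : 1 ≤ Real.log s ^ 20 := one_le_pow₀ (by linarith)
          have h7 : Real.log s ^ 21 = Real.log s ^ 20 * Real.log s := by ring
          rw [h7]
          nlinarith
        rcases Nat.eq_zero_or_pos (rh s) with h0 | h0
        · rw [h0]
          simp
          linarith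
        · calc Real.log (rh s) ≤ Real.log (Real.log s ^ 21) :=
                Real.log_le_log (by exact_mod_cast h0) (h3.trans h5)
            _ = 21 * Real.log (Real.log s) := by
                rw [Real.log_pow]
                norm_num
      have h8 : Real.log (rh s) * Real.log (Real.log s) ^ 2
          ≤ 21 * Real.log (Real.log s) * Real.log (Real.log s) ^ 2 :=
        mul_le_mul_of_nonneg_right h2 (sq_nonneg _)
      calc Real.log (rh s) * Real.log (Real.log s) ^ 2 / Real.log s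
          ≤ 21 * Real.log (Real.log s) * Real.log (Real.log s) ^ 2 / Real.log s :=
            div_le_div_of_nonneg_right h8 (by linarith)
        _ = 21 * (Real.log (Real.log s) ^ 3 / Real.log s) := by ring

theorem rp_eq (Z ρ : ℕ → ℕ) (a : ℕ → ℕ) : RP Z a = HPair Z ρ (fun _ p b => b p) a := by
  funext n
  unfold RP HPair
  simp

/-- the statement for the purely random sieve -/
def T3PG : Prop :=
  ∀ (c : ℝ), 0 < c → ∀ (Z : ℕ → ℕ), CutL c Z →
    ∀ (Ω : Type) [MeasurableSpace Ω] (μ : Measure Ω) [IsProbabilityMeasure μ] (ω : ℕ → Ω → ℕ),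
      Uni μ ω → ∀ᵐ w ∂μ, ∀ b d : ℕ, (b = 1 ∨ b = 3) → (d = 1 ∨ d = 3) →
        Tendsto (fun x : ℕ => (Real.log x / Real.log (Real.log x)) ^ 2 *
          (delta (RP Z (fun p => ω p w)) x b d - 1 / 2)) atTop
          (𝓝 ((if b = d then -1 else 1) *
            (Real.exp (-2 * Real.eulerMascheroniConstant) / (2 * c ^ 2))))

theorem t3p (h : T3G) : T3PG := by
  intro c hc Z hZ Ω _ μ _ ω hω
  have h1 := h c hc Z rh hZ thr_rh (fun _ p b => b p) (fun s p hp a a' h => h p hp) Ω μ ω hω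
  filter_upwards [h1] with w hw
  intro b d hb hd
  rw [rp_eq Z rh]
  exact hw b d hb hd

/-- the statement for the Banks-Ford-Tao cutoff -/
def T3BG : Prop :=
  ∀ (Z : ℕ → ℕ), Monotone Z → (∀ n, Z n ≤ n) →
    Tendsto (fun n : ℕ => (∏ p ∈ (range (Z n + 1)).filter Nat.Prime, (1 - 1 / (p : ℝ))) * Real.log n)
      atTop (𝓝 1) →
    ∀ (Ω : Type) [MeasurableSpace Ω] (μ : Measure Ω) [IsProbabilityMeasure μ] (ω : ℕ → Ω → ℕ),
      Uni μ ω → ∀ᵐ w ∂μ, ∀ b d : ℕ, (b = 1 ∨ b = 3) → (d = 1 ∨ d = 3) →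
        Tendsto (fun x : ℕ => (Real.log x / Real.log (Real.log x)) ^ 2 *
          (delta (RP Z (fun p => ω p w)) x b d - 1 / 2)) atTop
          (𝓝 ((if b = d then -1 else 1) * (1 / 2)))

theorem t3b (h : T3PG) (hcut : CUTBG) : T3BG := by
  intro Z hm hle hV Ω _ μ _ ω hω
  have h1 := h (Real.exp (-Real.eulerMascheroniConstant)) (Real.exp_pos _) Z ⟨hm, hle, hcut Z hV⟩
    Ω μ ω hω
  filter_upwards [h1] with w hw
  intro b d hb hd
  have h2 := hw b d hb hd
  have e : Real.exp (-2 * Real.eulerMascheroniConstant) /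
      (2 * Real.exp (-Real.eulerMascheroniConstant) ^ 2) = 1 / 2 := by
    have e1 : Real.exp (-2 * Real.eulerMascheroniConstant)
        = Real.exp (-Real.eulerMascheroniConstant) ^ 2 := by
      rw [← Real.exp_nat_mul]
      congr 1
      push_cast
      ring
    have e2 : Real.exp (-Real.eulerMascheroniConstant) ^ 2 ≠ 0 := (pow_pos (Real.exp_pos _) 2).ne'
    rw [e1]
    field_simp
  rw [e] at h2
  exact h2

end Pool.Agent.Helper76.TB
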