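import Pool.Agent.Helper76.TB.Final

/-!
# T3, with the cutoff given by the density of the surviving integers
-/

set_option autoImplicit false

open Finset Filter Topology MeasureTheory ProbabilityTheory

namespace Pool.Agent.Helper76.TB

open Pool.Agent.Helper60.BFT (root delta Pair Uni cls)
open Pool.Agent.Helper48.CR Pool.Agent.Helper84.CR

theorem cutB {B : ℝ} (hB : 0 < B) (Z : ℕ → ℕ)
    (hZ : Tendsto (fun n : ℕ => (∏ p ∈ (range (Z n + 1)).filter Nat.Prime, (1 - 1 / (p : ℝ))) *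
      Real.log n) atTop (𝓝 B)) :
    Tendsto (fun n : ℕ => Real.log (Z n) / Real.log n) atTop
      (𝓝 (Real.exp (-Real.eulerMascheroniConstant) / B)) := by
  have hVe : ∀ z : ℕ, V z = ∏ p ∈ (range (z + 1)).filter Nat.Prime, (1 - 1 / (p : ℝ)) := by
    intro z
    unfold V
    refine Finset.prod_congr ?_ fun _ _ => rfl
    ext p
    simp only [pr, mem_filter, mem_Ioc, mem_range]
    constructor
    · rintro ⟨⟨h1, h2⟩, h3⟩
      exact ⟨by omega, h3⟩
    · rintro ⟨h1, h2⟩
      exact ⟨⟨h2.pos, by omega⟩, h2⟩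
  have hZ' : Tendsto (fun n : ℕ => V (Z n) * Real.log n) atTop (𝓝 B) := by
    simpa only [hVe] using hZ
  have hlog : Tendsto (fun n : ℕ => Real.log (n : ℝ)) atTop atTop :=
    Real.tendsto_log_atTop.comp tendsto_natCast_atTop_atTop
  have hV0 : Tendsto (fun n : ℕ => V (Z n)) atTop (𝓝 0) := by
    have h := hZ'.mul hlog.inv_tendsto_atTop
    rw [mul_zero] at h
    refine h.congr' ?_
    filter_upwards [hlog.eventually_gt_atTop 0] with n hn
    simp only [Pi.inv_apply]
    field_simp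
  have hZi : Tendsto Z atTop atTop := by
    rw [tendsto_atTop]
    intro M
    have h := hV0.eventually (gt_mem_nhds (V_pos M))
    filter_upwards [h] with n hn
    by_contra hc
    push Not at hc
    have := V_anti hc.le
    linarith
  have h1 : Tendsto (fun n : ℕ => V (Z n) * Real.log (Z n)) atTop
      (𝓝 (Real.exp (-Real.eulerMascheroniConstant))) := V_log.comp hZi
  have h2 := h1.div hZ' hB.ne'
  refine h2.congr' ?_
  filter_upwards [hlog.eventually_gt_atTop 0] with n hn
  have hv := V_pos (Z n)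
  simp only [Pi.div_apply]
  rw [mul_div_mul_left _ _ hv.ne']

/-- the statement T3, final form -/
def T3WG : Prop :=
  ∀ (B : ℝ), 0 < B → ∀ (Z ρ : ℕ → ℕ), Monotone Z → (∀ n, Z n ≤ n) →
    Tendsto (fun n : ℕ => (∏ p ∈ (range (Z n + 1)).filter Nat.Prime, (1 - 1 / (p : ℝ))) *
      Real.log n) atTop (𝓝 B) → Thr3 ρ → ∀ β : ℕ → ℕ → (ℕ → ℕ) → ℕ, AdaptedR ρ β →
    ∀ (Ω : Type) [MeasurableSpace Ω] (μ : Measure Ω) [IsProbabilityMeasure μ] (ω : ℕ → Ω → ℕ),
      Uni μ ω → ∀ᵐ w ∂μ, ∀ b d : ℕ, (b = 1 ∨ b = 3) → (d = 1 ∨ d = 3) →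
        Tendsto (fun x : ℕ => (Real.log x / Real.log (Real.log x)) ^ 2 *
          (delta (HPair Z ρ β (fun p => ω p w)) x b d - 1 / 2)) atTop
          (𝓝 ((if b = d then -1 else 1) * (B ^ 2 / 2)))

theorem t3w_final : T3WG := by
  intro B hB Z ρ hm hle hV hρ β hβ Ω _ μ _ ω hω
  have h1 := t3v_final (Real.exp (-Real.eulerMascheroniConstant) / B)
    (div_pos (Real.exp_pos _) hB) Z ρ ⟨hm, hle, cutB hB Z hV⟩ hρ β hβ Ω μ ω hω
  filter_upwards [h1] with w hw
  intro b d hb hd
  have h2 := hw b d hb hd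
  have e : Real.exp (-2 * Real.eulerMascheroniConstant) /
      (2 * (Real.exp (-Real.eulerMascheroniConstant) / B) ^ 2) = B ^ 2 / 2 := by
    have e1 : Real.exp (-2 * Real.eulerMascheroniConstant)
        = Real.exp (-Real.eulerMascheroniConstant) ^ 2 := by
      rw [← Real.exp_nat_mul]
      congr 1
      push_cast
      ring
    have e2 : Real.exp (-Real.eulerMascheroniConstant) ≠ 0 := (Real.exp_pos _).ne'
    have e3 : B ≠ 0 := hB.ne'
    rw [e1]
    field_simp
  rw [e] at h2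
  exact h2

end Pool.Agent.Helper76.TB
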